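import Mathlib

/-!
Exposed faces of convex hulls of finite sets.
-/

namespace Pool.Agent.Lib.MP_257afc_co

open Finset Module

variable {E : Type*} [NormedAddCommGroup E] [NormedSpace ℝ E]

/-- A face of the hull of a finite set cut out by a functional. -/
theorem exposed_hull {V T : Finset E} (l : E →L[ℝ] ℝ) (m : ℝ) (hTV : T ⊆ V)
    (h1 : ∀ z ∈ T, l z = m) (h2 : ∀ z ∈ V, z ∉ T → l z < m) (hne : T.Nonempty) :
    IsExposed ℝ (convexHull ℝ (V : Set E)) (convexHull ℝ (T : Set E)) := by
  intro _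
  refine ⟨l, ?_⟩
  have hTm : ∀ x ∈ convexHull ℝ (T : Set E), l x = m := by
    intro x hx
    have hconv : Convex ℝ {x : E | l x = m} := by
      intro a ha b hb s t _ _ hst
      simp only [Set.mem_ofPred_eq] at ha hb ⊢
      rw [map_add, map_smul, map_smul, ha, hb, ← add_smul, hst, one_smul]
    exact convexHull_min (fun z hz => h1 z (by exact_mod_cast hz)) hconv hx
  have hVm : ∀ x ∈ convexHull ℝ (V : Set E), l x ≤ m := by
    intro x hx
    have hconv : Convex ℝ {x : E | l x ≤ m} := convex_halfSpace_le l.toLinearMap.isLinear m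
    refine convexHull_min (fun z hz => ?_) hconv hx
    by_cases hzT : z ∈ T
    · exact (h1 z hzT).le
    · exact (h2 z (by exact_mod_cast hz) hzT).le
  ext x
  constructor
  · intro hx
    refine ⟨convexHull_mono (by exact_mod_cast hTV) hx, fun y hy => ?_⟩
    rw [hTm x hx]
    exact hVm y hy
  · rintro ⟨hx, hmax⟩
    obtain ⟨t, ht⟩ := hne
    have hge : m ≤ l x := by
      have := hmax t (subset_convexHull ℝ _ (by exact_mod_cast hTV ht))
      rwa [h1 t ht] at this
    rw [Finset.mem_convexHull'] at hx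
    obtain ⟨w, hw0, hw1, hwx⟩ := hx
    have hsum : ∑ y ∈ V, w y * (m - l y) ≤ 0 := by
      have e1 : l x = ∑ y ∈ V, w y * l y := by
        rw [← hwx, map_sum]
        exact Finset.sum_congr rfl fun y _ => by rw [map_smul, smul_eq_mul]
      have e2 : ∑ y ∈ V, w y * (m - l y) = m - l x := by
        rw [e1]
        simp only [mul_sub, Finset.sum_sub_distrib]
        rw [← Finset.sum_mul, hw1, one_mul]
      rw [e2]; linarith
    have hnn : ∀ y ∈ V, 0 ≤ w y * (m - l y) := by
      intro y hy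
      apply mul_nonneg (hw0 y hy)
      by_cases hyT : y ∈ T
      · rw [h1 y hyT, sub_self]
      · exact sub_nonneg.2 (h2 y hy hyT).le
    have hzero := (Finset.sum_eq_zero_iff_of_nonneg hnn).1
      (le_antisymm hsum (Finset.sum_nonneg hnn))
    have hw2 : ∀ y ∈ V, y ∉ T → w y = 0 := by
      intro y hy hyT
      rcases mul_eq_zero.1 (hzero y hy) with h | h
      · exact h
      · exact absurd h (sub_pos.2 (h2 y hy hyT)).ne'
    rw [Finset.mem_convexHull']
    refine ⟨w, fun y hy => hw0 y (hTV hy), ?_, ?_⟩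
    · rw [← hw1]
      exact Finset.sum_subset hTV fun y hy hyT => hw2 y hy hyT
    · rw [← hwx]
      exact Finset.sum_subset hTV fun y hy hyT => by rw [hw2 y hy hyT, zero_smul]

/-- Nonempty exposed faces of the hull of a finite set. -/
theorem exposed_cases {V : Finset E} {G : Set E}
    (hG : IsExposed ℝ (convexHull ℝ (V : Set E)) G) (hne : G.Nonempty) :
    ∃ (l : E →L[ℝ] ℝ) (m : ℝ), (∀ z ∈ V, l z ≤ m) ∧ (∃ z ∈ V, l z = m) ∧
      (∀ x, x ∈ G ∩ (V : Set E) ↔ x ∈ V ∧ l x = m) := by
  obtain ⟨l, hl⟩ := hG hne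
  have hVne : V.Nonempty := by
    obtain ⟨x, hx⟩ := hne
    have hx' : x ∈ convexHull ℝ (V : Set E) := by rw [hl] at hx; exact hx.1
    by_contra hV
    rw [Finset.not_nonempty_iff_eq_empty] at hV
    rw [hV] at hx'
    simp at hx'
  obtain ⟨z0, hz0, hmax⟩ := Finset.exists_max_image V l hVne
  refine ⟨l, l z0, hmax, ⟨z0, hz0, rfl⟩, fun x => ?_⟩
  have hVm : ∀ x ∈ convexHull ℝ (V : Set E), l x ≤ l z0 := by
    intro x hx
    have hconv : Convex ℝ {x : E | l x ≤ l z0} := convex_halfSpace_le l.toLinearMap.isLinear _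
    exact convexHull_min (fun z hz => hmax z (by exact_mod_cast hz)) hconv hx
  constructor
  · rintro ⟨hxG, hxV⟩
    have hxV' : x ∈ V := by exact_mod_cast hxV
    refine ⟨hxV', le_antisymm (hmax x hxV') ?_⟩
    rw [hl] at hxG
    exact hxG.2 z0 (subset_convexHull ℝ _ (by exact_mod_cast hz0))
  · rintro ⟨hxV, hxm⟩
    refine ⟨?_, by exact_mod_cast hxV⟩
    rw [hl]
    exact ⟨subset_convexHull ℝ _ (by exact_mod_cast hxV), fun y hy => by rw [hxm]; exact hVm y hy⟩

/-- A point outside of the hull of a finite set is strictly separated. -/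
theorem exists_sep {A : Finset E} {v : E} (hv : v ∉ convexHull ℝ (A : Set E)) :
    ∃ f : E →L[ℝ] ℝ, ∀ z ∈ A, f v < f z := by
  obtain ⟨f, u, hu, hf⟩ := geometric_hahn_banach_point_closed (convex_convexHull ℝ (A : Set E))
    (A.finite_toSet.isCompact_convexHull ℝ).isClosed hv
  exact ⟨f, fun z hz => hu.trans (hf z (subset_convexHull ℝ _ (by exact_mod_cast hz)))⟩

end Pool.Agent.Lib.MP_257afc_co
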