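import Pool.Agent.Lib.MP_257afc_co.Basic
import Pool.Agent.Lib.MP_257afc_co.Hull

/-!
The vertex-edge system of a simple polytope given as a convex hull.
-/

namespace Pool.Agent.Lib.MP_257afc_co

open Finset Module

section Vertex

variable {E : Type*} [NormedAddCommGroup E] [NormedSpace ℝ E]

/-- An extreme point of a hull is not in the hull of the other points. -/
theorem notMem_hull_erase [DecidableEq E] {V : Finset E} {v : E}
    (hv : v ∈ (convexHull ℝ (V : Set E)).extremePoints ℝ) :
    v ∉ convexHull ℝ ((V.erase v : Finset E) : Set E) := by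
  rw [(convex_convexHull ℝ (V : Set E)).mem_extremePoints_iff_mem_sdiff_convexHull_sdiff] at hv
  intro h
  refine hv.2 (convexHull_mono ?_ h)
  intro z hz
  rw [Finset.coe_erase] at hz
  exact ⟨subset_convexHull ℝ _ hz.1, hz.2⟩

/-- The hull of a finite set is the hull of its extreme points. -/
theorem exists_ext [DecidableEq E] (V : Finset E) : ∃ X : Finset E, X ⊆ V ∧
    (X : Set E) = (convexHull ℝ (V : Set E)).extremePoints ℝ ∧
    convexHull ℝ (X : Set E) = convexHull ℝ (V : Set E) := by
  classical
  have hsub := extremePoints_convexHull_subset (𝕜 := ℝ) (A := (V : Set E))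
  refine ⟨V.filter (fun z => z ∈ (convexHull ℝ (V : Set E)).extremePoints ℝ),
    Finset.filter_subset _ _, ?_, ?_⟩
  · ext z
    simp only [Finset.coe_filter, Set.mem_ofPred_eq]
    exact ⟨fun h => h.2, fun h => ⟨by exact_mod_cast hsub h, h⟩⟩
  · have he : ((V.filter (fun z => z ∈ (convexHull ℝ (V : Set E)).extremePoints ℝ) :
        Finset E) : Set E) = (convexHull ℝ (V : Set E)).extremePoints ℝ := by
      ext z
      simp only [Finset.coe_filter, Set.mem_ofPred_eq]
      exact ⟨fun h => h.2, fun h => ⟨by exact_mod_cast hsub h, h⟩⟩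
    have hK := closure_convexHull_extremePoints (V.finite_toSet.isCompact_convexHull ℝ)
      (convex_convexHull ℝ (V : Set E))
    rw [← he] at hK
    rwa [(Finset.finite_toSet _).isCompact_convexHull ℝ |>.isClosed.closure_eq] at hK

theorem cone_vertex [DecidableEq E] {V : Finset E} {v : E}
    (hext : ∀ z ∈ V, z ∈ (convexHull ℝ (V : Set E)).extremePoints ℝ) (hv : v ∈ V) {x : E}
    (hx : x ∈ V) :
    ∃ c : E → ℝ, (∀ w, 0 ≤ c w) ∧
      (∀ w, c w ≠ 0 → w ∈ V ∧ w ≠ v ∧ IsExposed ℝ (convexHull ℝ (V : Set E)) (segment ℝ v w)) ∧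
      x - v = ∑ w ∈ V, c w • (w - v) := by
  classical
  rcases eq_or_ne x v with rfl | hxv
  · exact ⟨fun _ => 0, fun _ => le_rfl, fun _ h => absurd rfl h, by simp⟩
  obtain ⟨f, hf⟩ := exists_sep (notMem_hull_erase (hext v hv))
  have hpos : ∀ z ∈ V, z ≠ v → 0 < f (z - v) := by
    intro z hz hzv
    rw [map_sub, sub_pos]
    exact hf z (Finset.mem_erase.2 ⟨hzv, hz⟩)
  set ρ : E → E := fun z => (f (z - v))⁻¹ • (z - v) with hρ
  set R : Finset E := (V.erase v).image ρ with hR
  obtain ⟨X, hXR, hXext, hXconv⟩ := exists_ext R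
  -- the rays of the vertex figure
  have key : ∀ r ∈ X, ∃ z ∈ V, z ≠ v ∧ ρ z = r ∧
      IsExposed ℝ (convexHull ℝ (V : Set E)) (segment ℝ v z) := by
    intro r hr
    have hrext : r ∈ (convexHull ℝ (R : Set E)).extremePoints ℝ := by
      rw [← hXext]; exact_mod_cast hr
    obtain ⟨z, hz, hzr⟩ := Finset.mem_image.1 (hXR hr)
    rw [Finset.mem_erase] at hz
    obtain ⟨hzv, hzV⟩ := hz
    refine ⟨z, hzV, hzv, hzr, ?_⟩
    obtain ⟨g, hg⟩ := exists_sep (notMem_hull_erase hrext)
    set l : E →L[ℝ] ℝ := g r • f - g with hl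
    have hlval : ∀ y ∈ V, y ≠ v → l (y - v) = f (y - v) * (g r - g (ρ y)) := by
      intro y hy hyv
      have h1 := (hpos y hy hyv).ne'
      have h2 : g (ρ y) = (f (y - v))⁻¹ * g (y - v) := by
        simp only [hρ, map_smul, smul_eq_mul]
      have h3 : l (y - v) = g r * f (y - v) - g (y - v) := by
        simp only [hl, _root_.sub_apply, _root_.smul_apply, smul_eq_mul]
      rw [h3, h2]
      field_simp
    have hT : ({v, z} : Finset E) ⊆ V := by
      intro y hy
      rw [Finset.mem_insert, Finset.mem_singleton] at hy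
      rcases hy with rfl | rfl <;> assumption
    have h := exposed_hull (V := V) (T := {v, z}) l (l v) hT ?_ ?_ ⟨v, by simp⟩
    · rwa [Finset.coe_pair, convexHull_pair] at h
    · intro y hy
      rw [Finset.mem_insert, Finset.mem_singleton] at hy
      rcases hy with rfl | rfl
      · rfl
      · have := hlval y hzV hzv
        rw [hzr, sub_self, mul_zero, map_sub] at this
        linarith
    · intro y hy hyT
      rw [Finset.mem_insert, Finset.mem_singleton, not_or] at hyT
      obtain ⟨hyv, hyz⟩ := hyT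
      have hne : ρ y ≠ r := by
        intro hyr
        have hpy := hpos y hy hyv
        have hpz := hpos z hzV hzv
        have e1 : (f (y - v))⁻¹ • (y - v) = (f (z - v))⁻¹ • (z - v) := by
          have : ρ y = ρ z := by rw [hyr, hzr]
          simpa only [hρ] using this
        have e2 : y - v = (f (y - v) / f (z - v)) • (z - v) := by
          have := congrArg (fun u => f (y - v) • u) e1
          simp only [smul_smul, mul_inv_cancel₀ hpy.ne', one_smul] at this
          rw [div_eq_mul_inv]
          exact this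
        have e3 : z - v = (f (z - v) / f (y - v)) • (y - v) := by
          have := congrArg (fun u => f (z - v) • u) e1
          simp only [smul_smul, mul_inv_cancel₀ hpz.ne', one_smul] at this
          rw [div_eq_mul_inv]
          exact this.symm
        have hVP : ∀ u ∈ V, u ∈ convexHull ℝ (V : Set E) := fun u hu =>
          subset_convexHull ℝ _ (by exact_mod_cast hu)
        have seg : ∀ (a b : E) (t : ℝ), 0 ≤ t → t ≤ 1 → a - v = t • (b - v) →
            a ∈ segment ℝ v b := by
          intro a b t ht0 ht1 hab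
          refine ⟨1 - t, t, sub_nonneg.2 ht1, ht0, by ring, ?_⟩
          have : a = v + t • (b - v) := by rw [← hab]; abel
          rw [this, smul_sub, sub_smul, one_smul]
          abel
        rcases le_total (f (y - v)) (f (z - v)) with hle | hle
        · have hyseg : y ∈ segment ℝ v z :=
            seg y z _ (div_nonneg hpy.le hpz.le) ((div_le_one hpz).2 hle) e2
          have := (mem_extremePoints_iff_forall_segment.1 (hext y hy)).2 v (hVP v hv) z
            (hVP z hzV) hyseg
          rcases this with h | h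
          · exact hyv h.symm
          · exact hyz h.symm
        · have hzseg : z ∈ segment ℝ v y :=
            seg z y _ (div_nonneg hpz.le hpy.le) ((div_le_one hpy).2 hle) e3
          have := (mem_extremePoints_iff_forall_segment.1 (hext z hzV)).2 v (hVP v hv) y
            (hVP y hy) hzseg
          rcases this with h | h
          · exact hzv h.symm
          · exact hyz h
      have h1 := hg (ρ y) (Finset.mem_erase.2 ⟨hne, Finset.mem_image.2
        ⟨y, Finset.mem_erase.2 ⟨hyv, hy⟩, rfl⟩⟩)
      have h2 := hlval y hy hyv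
      have h3 := mul_pos (hpos y hy hyv) (sub_pos.2 h1)
      rw [map_sub] at h2
      nlinarith
  choose! zr hzrV hzrv hzrr hzre using key
  have hxρ : ρ x ∈ convexHull ℝ (X : Set E) := by
    rw [hXconv]
    exact subset_convexHull ℝ _ (by
      exact_mod_cast Finset.mem_image.2 ⟨x, Finset.mem_erase.2 ⟨hxv, hx⟩, rfl⟩)
  rw [Finset.mem_convexHull'] at hxρ
  obtain ⟨a, ha0, -, hax⟩ := hxρ
  have hpx := hpos x hx hxv
  have e1 : x - v = f (x - v) • ρ x := by
    simp only [hρ, smul_smul, mul_inv_cancel₀ hpx.ne', one_smul]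
  generalize f (x - v) = β at hpx e1
  refine ⟨fun w => ∑ r ∈ X, if zr r = w then β * a r * (f (zr r - v))⁻¹ else 0,
    ?_, ?_, ?_⟩
  · intro w
    refine Finset.sum_nonneg fun r hr => ?_
    split_ifs
    · exact mul_nonneg (mul_nonneg hpx.le (ha0 r hr))
        (inv_nonneg.2 (hpos _ (hzrV r hr) (hzrv r hr)).le)
    · exact le_rfl
  · intro w hw
    obtain ⟨r, hr, hrw⟩ := Finset.exists_ne_zero_of_sum_ne_zero hw
    have hrw' : zr r = w := by
      by_contra hne
      rw [if_neg hne] at hrw
      exact hrw rfl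
    rw [← hrw']
    exact ⟨hzrV r hr, hzrv r hr, hzre r hr⟩
  · rw [e1, ← hax, Finset.smul_sum]
    have e2 : ∀ w ∈ V, (∑ r ∈ X, if zr r = w then β * a r * (f (zr r - v))⁻¹ else 0) •
        (w - v) = ∑ r ∈ X, if zr r = w then (β * a r * (f (zr r - v))⁻¹) • (zr r - v)
          else 0 := by
      intro w _
      rw [Finset.sum_smul]
      refine Finset.sum_congr rfl fun r _ => ?_
      split_ifs with h
      · rw [h]
      · rw [zero_smul]
    rw [Finset.sum_congr rfl e2, Finset.sum_comm]
    refine Finset.sum_congr rfl fun r hr => ?_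
    rw [Finset.sum_ite_eq, if_pos (hzrV r hr), mul_smul]
    have : (f (zr r - v))⁻¹ • (zr r - v) = r := hzrr r hr
    rw [this, smul_smul]

end Vertex

theorem exists_sys {d : ℕ} (hd : 0 < d) (S : Finset (EuclideanSpace ℝ (Fin d)))
    (hS : affineSpan ℝ (S : Set (EuclideanSpace ℝ (Fin d))) = ⊤)
    (hsimple : ∀ v ∈ (convexHull ℝ (S : Set (EuclideanSpace ℝ (Fin d)))).extremePoints ℝ,
      {G | IsExposed ℝ (convexHull ℝ (S : Set (EuclideanSpace ℝ (Fin d)))) G ∧ v ∈ G ∧
        finrank ℝ (affineSpan ℝ G).direction = 1}.ncard = d) :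
    ∃ P : Sys (EuclideanSpace ℝ (Fin d)) d,
      (P.V : Set (EuclideanSpace ℝ (Fin d))) =
        (convexHull ℝ (S : Set (EuclideanSpace ℝ (Fin d)))).extremePoints ℝ ∧
      convexHull ℝ (P.V : Set (EuclideanSpace ℝ (Fin d))) =
        convexHull ℝ (S : Set (EuclideanSpace ℝ (Fin d))) := by
  classical
  obtain ⟨V, hVS, hVext, hVconv⟩ := exists_ext S
  have hext : ∀ z ∈ V, z ∈ (convexHull ℝ (V : Set (EuclideanSpace ℝ (Fin d)))).extremePoints ℝ := by
    intro z hz
    rw [hVconv, ← hVext]; exact_mod_cast hz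
  have hspan : affineSpan ℝ (V : Set (EuclideanSpace ℝ (Fin d))) = ⊤ := by
    rw [← affineSpan_convexHull, hVconv, affineSpan_convexHull, hS]
  set N : EuclideanSpace ℝ (Fin d) → Finset (EuclideanSpace ℝ (Fin d)) := fun v =>
    V.filter fun w => w ≠ v ∧ IsExposed ℝ (convexHull ℝ (V : Set (EuclideanSpace ℝ (Fin d))))
      (segment ℝ v w) with hN
  have hcone : ∀ v ∈ V, ∀ x ∈ V, ∃ c : EuclideanSpace ℝ (Fin d) → ℝ, (∀ w ∈ N v, 0 ≤ c w) ∧
      x - v = ∑ w ∈ N v, c w • (w - v) := by
    intro v hv x hx
    obtain ⟨c, hc0, hc1, hc2⟩ := cone_vertex hext hv hx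
    refine ⟨c, fun w _ => hc0 w, ?_⟩
    rw [hc2]
    refine (Finset.sum_subset (Finset.filter_subset _ _) fun w hw hwN => ?_).symm
    have : c w = 0 := by
      by_contra hne
      exact hwN (Finset.mem_filter.2 (hc1 w hne))
    rw [this, zero_smul]
  have hle : ∀ v ∈ V, (N v).card ≤ d := by
    intro v hv
    have hvext : v ∈ (convexHull ℝ (S : Set (EuclideanSpace ℝ (Fin d)))).extremePoints ℝ := by
      rw [← hVext]; exact_mod_cast hv
    have hcard := hsimple v hvext
    have hfin := Set.finite_of_ncard_pos (hcard ▸ hd)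
    refine le_trans ?_ hcard.le
    rw [← Set.ncard_coe_finset (N v)]
    refine Set.ncard_le_ncard_of_injOn (fun w => segment ℝ v w) ?_ ?_ hfin
    · intro w hw
      have hw' := Finset.mem_filter.1 (show w ∈ N v by exact_mod_cast hw)
      refine ⟨by rw [← hVconv]; exact hw'.2.2, left_mem_segment ℝ v w, ?_⟩
      rw [← convexHull_pair, affineSpan_convexHull, direction_affineSpan, vectorSpan_pair]
      exact finrank_span_singleton (by
        rw [vsub_eq_sub]; exact sub_ne_zero.2 hw'.2.1.symm)
    · intro w hw w' hw' heq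
      have h1 := Finset.mem_filter.1 (show w ∈ N v by exact_mod_cast hw)
      have h2 := Finset.mem_filter.1 (show w' ∈ N v by exact_mod_cast hw')
      have hmem : w ∈ segment ℝ v w' := by
        have : segment ℝ v w = segment ℝ v w' := heq
        rw [← this]; exact right_mem_segment ℝ v w
      have hVP : ∀ u ∈ V, u ∈ convexHull ℝ (V : Set (EuclideanSpace ℝ (Fin d))) := fun u hu =>
        subset_convexHull ℝ _ (by exact_mod_cast hu)
      rcases (mem_extremePoints_iff_forall_segment.1 (hext w h1.1)).2 v (hVP v hv) w'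
        (hVP w' h2.1) hmem with h | h
      · exact absurd h.symm h1.2.1
      · exact h.symm
  have hspanN : ∀ v ∈ V, ⊤ ≤ Submodule.span ℝ (Set.range fun w : N v => (w : EuclideanSpace ℝ (Fin d)) - v) := by
    intro v hv
    have h1 : vectorSpan ℝ (V : Set (EuclideanSpace ℝ (Fin d))) = ⊤ := by
      rw [← direction_affineSpan, hspan, AffineSubspace.direction_top]
    rw [vectorSpan_eq_span_vsub_set_right ℝ (show v ∈ (V : Set (EuclideanSpace ℝ (Fin d))) by
      exact_mod_cast hv)] at h1
    rw [← h1, Submodule.span_le]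
    rintro _ ⟨x, hx, rfl⟩
    obtain ⟨c, -, hc⟩ := hcone v hv x (by exact_mod_cast hx)
    simp only [vsub_eq_sub]
    rw [hc]
    exact Submodule.sum_mem _ fun w hw =>
      Submodule.smul_mem _ _ (Submodule.subset_span ⟨⟨w, hw⟩, rfl⟩)
  have hcard : ∀ v ∈ V, (N v).card = d := by
    intro v hv
    apply le_antisymm (hle v hv)
    have h1 := finrank_range_le_card (R := ℝ)
      (fun w : N v => (w : EuclideanSpace ℝ (Fin d)) - v)
    rw [Set.finrank, top_le_iff.1 (hspanN v hv), finrank_top, finrank_euclideanSpace_fin,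
      Fintype.card_coe] at h1
    exact h1
  refine ⟨⟨V, N, ?_, hcard, ?_, hcone, ?_⟩, hVext, hVconv⟩
  · intro v _
    exact Finset.filter_subset _ _
  · intro v hv
    apply linearIndependent_of_top_le_span_of_card_eq_finrank (hspanN v hv)
    rw [Fintype.card_coe, hcard v hv, finrank_euclideanSpace_fin]
  · intro v hv w hw
    have h := Finset.mem_filter.1 hw
    exact Finset.mem_filter.2 ⟨hv, h.2.1.symm, by rw [segment_symm]; exact h.2.2⟩

end Pool.Agent.Lib.MP_257afc_co
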