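import Mathlib

/-!
Vertex-edge data of simple polytopes.
-/

namespace Pool.Agent.Lib.MP_257afc_co

open Finset Module

/-- The vertices and edges of a simple polytope of dimension `d`: every vertex has `d` neighbours,
the edge directions at a vertex are linearly independent, and all vertices lie in the cone spanned
by them. -/
structure Sys (E : Type*) [AddCommGroup E] [Module ℝ E] (d : ℕ) where
  /-- the vertices -/
  V : Finset E
  /-- the neighbours of a vertex -/
  N : E → Finset E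
  sub : ∀ v ∈ V, N v ⊆ V
  card : ∀ v ∈ V, (N v).card = d
  li : ∀ v ∈ V, LinearIndependent ℝ (fun w : N v => (w : E) - v)
  cone : ∀ v ∈ V, ∀ x ∈ V, ∃ c : E → ℝ, (∀ w ∈ N v, 0 ≤ c w) ∧
    x - v = ∑ w ∈ N v, c w • (w - v)
  symm : ∀ v ∈ V, ∀ w ∈ N v, v ∈ N w

namespace Sys

variable {E : Type*} [AddCommGroup E] [Module ℝ E] {d : ℕ} (S : Sys E d)

theorem not_mem_N {v : E} (hv : v ∈ S.V) : v ∉ S.N v := by
  intro h
  exact (S.li v hv).ne_zero ⟨v, h⟩ (sub_self v)

theorem ne_of_mem {v w : E} (hv : v ∈ S.V) (hw : w ∈ S.N v) : w ≠ v := by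
  rintro rfl
  exact S.not_mem_N hv hw

/-- Functionals with prescribed values on the edge directions. -/
theorem exists_fun {v : E} (hv : v ∈ S.V) (g : E → ℝ) :
    ∃ l : E →ₗ[ℝ] ℝ, ∀ w ∈ S.N v, l (w - v) = g w := by
  have hinj : Function.Injective
      (Finsupp.linearCombination ℝ (fun w : S.N v => (w : E) - v)) := S.li v hv
  obtain ⟨m, hm⟩ := LinearMap.exists_leftInverse_of_injective
    (Finsupp.linearCombination ℝ (fun w : S.N v => (w : E) - v)) (LinearMap.ker_eq_bot.2 hinj)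
  refine ⟨(Finsupp.linearCombination ℝ (fun w : S.N v => g w)) ∘ₗ m, fun w hw => ?_⟩
  have h1 : Finsupp.linearCombination ℝ (fun w : S.N v => (w : E) - v)
      (Finsupp.single ⟨w, hw⟩ 1) = w - v := by
    rw [Finsupp.linearCombination_single, one_smul]
  have h2 := congrArg (fun f => f (Finsupp.single (⟨w, hw⟩ : S.N v) (1 : ℝ))) hm
  simp only [LinearMap.comp_apply, LinearMap.id_apply] at h2
  rw [LinearMap.comp_apply, ← h1, h2, Finsupp.linearCombination_single, one_smul]

open Classical in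
/-- The vertices of the face at `v` spanned by the neighbours in `T`. -/
noncomputable def face (v : E) (T : Finset E) : Finset E :=
  S.V.filter fun x => x - v ∈ Submodule.span ℝ ((fun w => w - v) '' (T : Set E))

theorem mem_face {v : E} {T : Finset E} {x : E} : x ∈ S.face v T ↔ x ∈ S.V ∧
    x - v ∈ Submodule.span ℝ ((fun w => w - v) '' (T : Set E)) := by
  classical
  unfold face
  rw [Finset.mem_filter]

theorem face_sub (v : E) (T : Finset E) : S.face v T ⊆ S.V := fun _ hx => (S.mem_face.1 hx).1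

theorem self_mem_face {v : E} (hv : v ∈ S.V) (T : Finset E) : v ∈ S.face v T :=
  S.mem_face.2 ⟨hv, by rw [sub_self]; exact Submodule.zero_mem _⟩

theorem mem_face_of_mem {v : E} (hv : v ∈ S.V) {T : Finset E} (hT : T ⊆ S.N v) {w : E}
    (hw : w ∈ T) : w ∈ S.face v T :=
  S.mem_face.2 ⟨S.sub v hv (hT hw), Submodule.subset_span ⟨w, hw, rfl⟩⟩

theorem span_zero {v : E} {T : Finset E} {l : E →ₗ[ℝ] ℝ} (hl : ∀ w ∈ T, l (w - v) = 0) {x : E}
    (hx : x ∈ Submodule.span ℝ ((fun w => w - v) '' (T : Set E))) : l x = 0 := by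
  have h : Submodule.span ℝ ((fun w => w - v) '' (T : Set E)) ≤ LinearMap.ker l := by
    rw [Submodule.span_le]
    rintro _ ⟨w, hw, rfl⟩
    exact hl w hw
  exact h hx

/-- A supporting functional of a face. -/
theorem exists_support {v : E} (hv : v ∈ S.V) {T : Finset E} (hT : T ⊆ S.N v) :
    ∃ l : E →ₗ[ℝ] ℝ, (∀ w ∈ T, l (w - v) = 0) ∧ (∀ w ∈ S.N v, w ∉ T → l (w - v) = 1) ∧
      ∀ x ∈ S.V, 0 ≤ l (x - v) ∧ (l (x - v) = 0 ↔ x ∈ S.face v T) := by
  classical
  obtain ⟨l, hl⟩ := S.exists_fun hv (fun w => if w ∈ T then 0 else 1)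
  have h0 : ∀ w ∈ T, l (w - v) = 0 := fun w hw => by rw [hl w (hT hw), if_pos hw]
  have h1 : ∀ w ∈ S.N v, w ∉ T → l (w - v) = 1 := fun w hw hwT => by rw [hl w hw, if_neg hwT]
  refine ⟨l, h0, h1, fun x hx => ?_⟩
  obtain ⟨c, hc, hxc⟩ := S.cone v hv x hx
  have hval : l (x - v) = ∑ w ∈ S.N v, c w * l (w - v) := by
    rw [hxc, map_sum]
    exact Finset.sum_congr rfl fun w _ => by rw [map_smul, smul_eq_mul]
  have hnn : ∀ w ∈ S.N v, 0 ≤ c w * l (w - v) := by
    intro w hw
    apply mul_nonneg (hc w hw)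
    by_cases hwT : w ∈ T
    · rw [h0 w hwT]
    · rw [h1 w hw hwT]; exact zero_le_one
  refine ⟨hval ▸ Finset.sum_nonneg hnn, fun h => ?_, fun h => span_zero h0 (S.mem_face.1 h).2⟩
  rw [hval, Finset.sum_eq_zero_iff_of_nonneg hnn] at h
  refine S.mem_face.2 ⟨hx, ?_⟩
  rw [hxc]
  refine Submodule.sum_mem _ fun w hw => ?_
  by_cases hwT : w ∈ T
  · exact Submodule.smul_mem _ _ (Submodule.subset_span ⟨w, hwT, rfl⟩)
  · have h2 := h w hw
    rw [h1 w hw hwT, mul_one] at h2
    rw [h2, zero_smul]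
    exact Submodule.zero_mem _

theorem N_inter_face [DecidableEq E] {v : E} (hv : v ∈ S.V) {T : Finset E} (hT : T ⊆ S.N v) :
    S.N v ∩ S.face v T = T := by
  obtain ⟨l, h0, h1, h2⟩ := S.exists_support hv hT
  ext w
  rw [Finset.mem_inter]
  constructor
  · rintro ⟨hw, hwF⟩
    by_contra hwT
    have h3 := (h2 w (S.sub v hv hw)).2.2 hwF
    rw [h1 w hw hwT] at h3
    exact one_ne_zero h3
  · intro hw
    exact ⟨hT hw, S.mem_face_of_mem hv hT hw⟩

theorem face_mono {v : E} {T T' : Finset E} (h : T ⊆ T') : S.face v T ⊆ S.face v T' := by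
  intro x hx
  rw [mem_face] at hx ⊢
  exact ⟨hx.1, Submodule.span_mono (Set.image_mono (by exact_mod_cast h)) hx.2⟩

/-- The cone property inside a face. -/
theorem cone_face [DecidableEq E] {v : E} (hv : v ∈ S.V) {T : Finset E} (hT : T ⊆ S.N v) {x : E}
    (hx : x ∈ S.face v T) {y : E} (hy : y ∈ S.face v T) :
    ∃ c : E → ℝ, (∀ w ∈ S.N x ∩ S.face v T, 0 ≤ c w) ∧
      y - x = ∑ w ∈ S.N x ∩ S.face v T, c w • (w - x) := by
  obtain ⟨l, -, -, h2⟩ := S.exists_support hv hT
  have hxV := S.face_sub v T hx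
  have hyV := S.face_sub v T hy
  obtain ⟨c, hc, hyc⟩ := S.cone x hxV y hyV
  refine ⟨c, fun w hw => hc w (Finset.mem_inter.1 hw).1, ?_⟩
  have hlx : l (x - v) = 0 := (h2 x hxV).2.2 hx
  have hly : l (y - v) = 0 := (h2 y hyV).2.2 hy
  have hlw : ∀ w, l (w - x) = l (w - v) := by
    intro w
    have : w - x = (w - v) - (x - v) := by abel
    rw [this, map_sub, hlx, sub_zero]
  have h3 : ∑ w ∈ S.N x, c w * l (w - v) = 0 := by
    have h4 : l (y - x) = 0 := by rw [hlw, hly]
    rw [hyc, map_sum] at h4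
    rw [← h4]
    exact Finset.sum_congr rfl fun w _ => by rw [map_smul, smul_eq_mul, hlw]
  rw [Finset.sum_eq_zero_iff_of_nonneg
    (fun w hw => mul_nonneg (hc w hw) (h2 w (S.sub x hxV hw)).1)] at h3
  rw [hyc]
  refine (Finset.sum_subset Finset.inter_subset_left fun w hw hwF => ?_).symm
  have h4 : c w = 0 := by
    rcases mul_eq_zero.1 (h3 w hw) with h | h
    · exact h
    · exact absurd (Finset.mem_inter.2 ⟨hw, (h2 w (S.sub x hxV hw)).2.1 h⟩) hwF
  rw [h4, zero_smul]

/-- A face is also spanned at each of its vertices. -/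
theorem face_eq [DecidableEq E] {v : E} (hv : v ∈ S.V) {T : Finset E} (hT : T ⊆ S.N v) {x : E}
    (hx : x ∈ S.face v T) : S.face x (S.N x ∩ S.face v T) = S.face v T := by
  obtain ⟨l, -, -, h2⟩ := S.exists_support hv hT
  have hxV := S.face_sub v T hx
  have hlx : l (x - v) = 0 := (h2 x hxV).2.2 hx
  have hlw : ∀ w, l (w - x) = l (w - v) := by
    intro w
    have : w - x = (w - v) - (x - v) := by abel
    rw [this, map_sub, hlx, sub_zero]
  ext y
  constructor
  · intro hy
    rw [mem_face] at hy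
    rw [← (h2 y hy.1).2, ← hlw]
    refine span_zero (fun w hw => ?_) hy.2
    rw [hlw]
    have hw' := (Finset.mem_inter.1 hw).2
    exact (h2 w (S.face_sub v T hw')).2.2 hw'
  · intro hy
    obtain ⟨c, -, hyc⟩ := S.cone_face hv hT hx hy
    rw [mem_face]
    refine ⟨S.face_sub v T hy, ?_⟩
    rw [hyc]
    exact Submodule.sum_mem _ fun w hw =>
      Submodule.smul_mem _ _ (Submodule.subset_span ⟨w, hw, rfl⟩)

theorem li_subset {v : E} (hv : v ∈ S.V) {T : Finset E} (hT : T ⊆ S.N v) :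
    LinearIndependent ℝ (fun w : T => (w : E) - v) :=
  (S.li v hv).comp (fun w : T => (⟨w, hT w.2⟩ : S.N v))
    (fun _ _ h => Subtype.ext (congrArg (fun z : S.N v => (z : E)) h))

theorem span_face {v : E} (hv : v ∈ S.V) {T : Finset E} (hT : T ⊆ S.N v) :
    Submodule.span ℝ ((fun w => w - v) '' (S.face v T : Set E)) =
      Submodule.span ℝ ((fun w => w - v) '' (T : Set E)) := by
  apply le_antisymm
  · rw [Submodule.span_le]
    rintro _ ⟨w, hw, rfl⟩
    exact (S.mem_face.1 hw).2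
  · apply Submodule.span_mono
    apply Set.image_mono
    intro w hw
    exact S.mem_face_of_mem hv hT hw

theorem finrank_span {v : E} (hv : v ∈ S.V) {T : Finset E} (hT : T ⊆ S.N v) :
    finrank ℝ (Submodule.span ℝ ((fun w => w - v) '' (T : Set E))) = T.card := by
  have h := finrank_span_eq_card (S.li_subset hv hT)
  rw [Fintype.card_coe] at h
  have h1 : (fun w => w - v) '' (T : Set E) = Set.range (fun w : T => (w : E) - v) := by
    ext x
    constructor
    · rintro ⟨w, hw, rfl⟩; exact ⟨⟨w, hw⟩, rfl⟩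
    · rintro ⟨⟨w, hw⟩, rfl⟩; exact ⟨w, hw, rfl⟩
  rw [h1, h]

theorem span_base (A : Set E) {v x : E} (hv : v ∈ A) (hx : x ∈ A) :
    Submodule.span ℝ ((fun w => w - v) '' A) = Submodule.span ℝ ((fun w => w - x) '' A) := by
  have key : ∀ v x : E, v ∈ A → x ∈ A → Submodule.span ℝ ((fun w => w - v) '' A) ≤
      Submodule.span ℝ ((fun w => w - x) '' A) := by
    intro v x hv hx
    rw [Submodule.span_le]
    rintro _ ⟨w, hw, rfl⟩
    have : w - v = (w - x) - (v - x) := by abel
    change w - v ∈ _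
    rw [this]
    exact Submodule.sub_mem _ (Submodule.subset_span ⟨w, hw, rfl⟩)
      (Submodule.subset_span ⟨v, hv, rfl⟩)
  exact le_antisymm (key v x hv hx) (key x v hx hv)

theorem card_inter [DecidableEq E] {v : E} (hv : v ∈ S.V) {T : Finset E} (hT : T ⊆ S.N v) {x : E}
    (hx : x ∈ S.face v T) : (S.N x ∩ S.face v T).card = T.card := by
  have hxV := S.face_sub v T hx
  rw [← S.finrank_span hxV Finset.inter_subset_left, ← S.finrank_span hv hT,
    ← S.span_face hxV Finset.inter_subset_left, ← S.span_face hv hT, S.face_eq hv hT hx,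
    span_base _ (show x ∈ (S.face v T : Set E) from hx)
      (show v ∈ (S.face v T : Set E) from S.self_mem_face hv T)]

/-- A face as a simple polytope. -/
noncomputable def sub_sys [DecidableEq E] {v : E} (hv : v ∈ S.V) {T : Finset E} (hT : T ⊆ S.N v) :
    Sys E T.card where
  V := S.face v T
  N x := S.N x ∩ S.face v T
  sub _ _ := Finset.inter_subset_right
  card _ hx := S.card_inter hv hT hx
  li x hx := S.li_subset (S.face_sub v T hx) Finset.inter_subset_left
  cone _ hx _ hy := S.cone_face hv hT hx hy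
  symm _ hx w hw := Finset.mem_inter.2
    ⟨S.symm _ (S.face_sub v T hx) w (Finset.mem_inter.1 hw).1, hx⟩

/-- Local minima are global minima. -/
theorem local_min (φ : E →ₗ[ℝ] ℝ) {x : E} (hx : x ∈ S.V) (h : ∀ w ∈ S.N x, φ x ≤ φ w) {y : E}
    (hy : y ∈ S.V) : φ x ≤ φ y := by
  obtain ⟨c, hc, hyc⟩ := S.cone x hx y hy
  have h1 : φ y - φ x = ∑ w ∈ S.N x, c w * (φ w - φ x) := by
    rw [← map_sub, hyc, map_sum]
    exact Finset.sum_congr rfl fun w _ => by rw [map_smul, smul_eq_mul, map_sub]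
  have h2 : 0 ≤ φ y - φ x := by
    rw [h1]
    exact Finset.sum_nonneg fun w hw => mul_nonneg (hc w hw) (sub_nonneg.2 (h w hw))
  linarith

/-- The graph is connected. -/
theorem connected {A : Finset E} (hA : A ⊆ S.V) (hne : A.Nonempty)
    (hcl : ∀ x ∈ A, ∀ w ∈ S.N x, w ∈ A) : A = S.V := by
  apply Finset.Subset.antisymm hA
  intro u hu
  obtain ⟨l, -, -, h2⟩ := S.exists_support hu (Finset.empty_subset (S.N u))
  obtain ⟨x, hx, hmin⟩ := Finset.exists_min_image A l hne
  have h3 := S.local_min l (hA hx) (fun w hw => hmin w (hcl x hx w hw)) hu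
  have h4 := (h2 x (hA hx)).1
  rw [map_sub] at h4
  have h5 : l (x - u) = 0 := by rw [map_sub]; linarith
  have h6 := (h2 x (hA hx)).2.1 h5
  rw [mem_face] at h6
  have h7 : x - u = 0 := by simpa using h6.2
  rw [← sub_eq_zero.1 h7]
  exact hx

end Sys

end Pool.Agent.Lib.MP_257afc_co
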