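import Pool.Agent.Lib.MP_257afc_co.Simp

/-!
A simple polytope all of whose two-dimensional faces are quadrilaterals is a cube.
-/

namespace Pool.Agent.Lib.MP_257afc_co

open Finset Module

namespace Sys

variable {E : Type*} [AddCommGroup E] [Module ℝ E] [DecidableEq E] {k : ℕ} (S : Sys E k)

omit [AddCommGroup E] [Module ℝ E] [DecidableEq E] in
theorem prop_aux {X Y W Z p q : Prop} (hpq : p → ¬ q)
    (my : ¬ Y ↔ ¬ X ∧ ¬ p ∨ p ∧ ¬ ¬ X) (mw : ¬ W ↔ ¬ X ∧ ¬ q ∨ q ∧ ¬ ¬ X)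
    (fA : X → Y → W → Z) (fB : Z → Y ∨ W) (fC : X → W → Z → Y) (fC' : X → Y → Z → W)
    (fD : Y → X ∨ Z) (fD' : W → X ∨ Z) : ¬ Z ↔ ¬ Y ∧ ¬ q ∨ q ∧ ¬ ¬ Y := by
  by_cases hX : X <;> by_cases hY : Y <;> by_cases hW : W <;> by_cases hZ : Z <;>
    by_cases hp : p <;> by_cases hq : q <;> simp_all

theorem pair_sub {x y w : E} (hy : y ∈ S.N x) (hw : w ∈ S.N x) : ({y, w} : Finset E) ⊆ S.N x := by
  intro u hu
  rcases Finset.mem_insert.1 hu with h | h
  · rw [h]; exact hy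
  · rw [Finset.mem_singleton.1 h]; exact hw

/-- The fourth vertex of a quadrilateral. -/
theorem exists_fourth (h4 : ∀ Q ∈ S.faces 2, Q.card = 4) {x : E} (hx : x ∈ S.V) {y w : E}
    (hy : y ∈ S.N x) (hw : w ∈ S.N x) (hyw : y ≠ w) :
    ∃ z ∈ S.V, z ≠ x ∧ z ∈ S.N y ∧ z ∈ S.N w ∧ z ∈ S.face x {y, w} ∧
      S.face y {x, z} = S.face x {y, w} ∧ S.face w {x, z} = S.face x {y, w} := by
  have hsub := S.pair_sub hy hw
  have hcard : ({y, w} : Finset E).card = 2 := Finset.card_pair hyw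
  have hQ := S.face_mem hx hsub hcard
  set Q := S.face x {y, w} with hQdef
  have hQ4 := h4 Q hQ
  have hxQ : x ∈ Q := S.self_mem_face hx _
  have hyQ : y ∈ Q := S.mem_face_of_mem hx hsub (Finset.mem_insert_self _ _)
  have hwQ : w ∈ Q := S.mem_face_of_mem hx hsub
    (Finset.mem_insert_of_mem (Finset.mem_singleton_self _))
  have hyx : y ≠ x := S.ne_of_mem hx hy
  have hwx : w ≠ x := S.ne_of_mem hx hw
  have hc3 : ({x, y, w} : Finset E).card = 3 := by
    rw [Finset.card_insert_of_notMem, hcard]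
    intro h
    rcases Finset.mem_insert.1 h with h | h
    · exact hyx h.symm
    · exact hwx (Finset.mem_singleton.1 h).symm
  have hsub3 : ({x, y, w} : Finset E) ⊆ Q := by
    intro u hu
    simp only [Finset.mem_insert, Finset.mem_singleton] at hu
    rcases hu with rfl | rfl | rfl <;> assumption
  have hR : (Q \ {x, y, w}).card = 1 := by
    rw [Finset.card_sdiff_of_subset hsub3, hc3, hQ4]
  obtain ⟨z, hz⟩ := Finset.card_eq_one.1 hR
  have hzQ' : z ∈ Q \ {x, y, w} := by rw [hz]; exact Finset.mem_singleton_self z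
  have hzQ : z ∈ Q := (Finset.mem_sdiff.1 hzQ').1
  have hz3 : z ∉ ({x, y, w} : Finset E) := (Finset.mem_sdiff.1 hzQ').2
  simp only [Finset.mem_insert, Finset.mem_singleton, not_or] at hz3
  obtain ⟨hzx, hzy, hzw⟩ := hz3
  have hQall : ∀ u ∈ Q, u = x ∨ u = y ∨ u = w ∨ u = z := by
    intro u hu
    by_cases h : u ∈ ({x, y, w} : Finset E)
    · simp only [Finset.mem_insert, Finset.mem_singleton] at h
      tauto
    · have : u ∈ Q \ {x, y, w} := Finset.mem_sdiff.2 ⟨hu, h⟩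
      rw [hz, Finset.mem_singleton] at this
      tauto
  have hyV := S.faces_sub hQ hyQ
  have hwV := S.faces_sub hQ hwQ
  have hzV := S.faces_sub hQ hzQ
  have hNx : S.N x ∩ Q = {y, w} := S.N_inter_face hx hsub
  have hzNx : z ∉ S.N x := by
    intro h
    have : z ∈ S.N x ∩ Q := Finset.mem_inter.2 ⟨h, hzQ⟩
    rw [hNx] at this
    simp only [Finset.mem_insert, Finset.mem_singleton] at this
    tauto
  have hxNy : x ∈ S.N y := S.symm x hx y hy
  have hxNw : x ∈ S.N w := S.symm x hx w hw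
  have hwNy : w ∉ S.N y := by
    intro hadj
    have hyNw : y ∈ S.N w := S.symm y hyV w hadj
    have h1 : ({x, w} : Finset E) = S.N y ∩ Q := by
      refine Finset.eq_of_subset_of_card_le ?_ ?_
      · intro u hu
        rcases Finset.mem_insert.1 hu with h | h
        · rw [h]; exact Finset.mem_inter.2 ⟨hxNy, hxQ⟩
        · rw [Finset.mem_singleton.1 h]; exact Finset.mem_inter.2 ⟨hadj, hwQ⟩
      · rw [S.faces_card hQ hyQ, Finset.card_pair hwx.symm]
    have h2 : ({x, y} : Finset E) = S.N w ∩ Q := by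
      refine Finset.eq_of_subset_of_card_le ?_ ?_
      · intro u hu
        rcases Finset.mem_insert.1 hu with h | h
        · rw [h]; exact Finset.mem_inter.2 ⟨hxNw, hxQ⟩
        · rw [Finset.mem_singleton.1 h]; exact Finset.mem_inter.2 ⟨hyNw, hyQ⟩
      · rw [S.faces_card hQ hwQ, Finset.card_pair hyx.symm]
    have hzNy : z ∉ S.N y := by
      intro h
      have : z ∈ S.N y ∩ Q := Finset.mem_inter.2 ⟨h, hzQ⟩
      rw [← h1] at this
      simp only [Finset.mem_insert, Finset.mem_singleton] at this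
      tauto
    have hzNw : z ∉ S.N w := by
      intro h
      have : z ∈ S.N w ∩ Q := Finset.mem_inter.2 ⟨h, hzQ⟩
      rw [← h2] at this
      simp only [Finset.mem_insert, Finset.mem_singleton] at this
      tauto
    have h3 := S.faces_card hQ hzQ
    have h5 : S.N z ∩ Q = ∅ := by
      rw [Finset.eq_empty_iff_forall_notMem]
      intro u hu
      obtain ⟨hu1, hu2⟩ := Finset.mem_inter.1 hu
      have hzu := S.symm z hzV u hu1
      rcases hQall u hu2 with h | h | h | h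
      · rw [h] at hzu; exact hzNx hzu
      · rw [h] at hzu; exact hzNy hzu
      · rw [h] at hzu; exact hzNw hzu
      · rw [h] at hzu; exact S.not_mem_N hzV hzu
    rw [h5] at h3
    simp at h3
  have hyNw : y ∉ S.N w := fun h => hwNy (S.symm w hwV y h)
  have hNy : S.N y ∩ Q = {x, z} := by
    refine Finset.eq_of_subset_of_card_le ?_ ?_
    · intro u hu
      obtain ⟨hu1, hu2⟩ := Finset.mem_inter.1 hu
      simp only [Finset.mem_insert, Finset.mem_singleton]
      rcases hQall u hu2 with h | h | h | h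
      · exact Or.inl h
      · rw [h] at hu1; exact absurd hu1 (S.not_mem_N hyV)
      · rw [h] at hu1; exact absurd hu1 hwNy
      · exact Or.inr h
    · rw [S.faces_card hQ hyQ, Finset.card_pair (Ne.symm hzx)]
  have hNw : S.N w ∩ Q = {x, z} := by
    refine Finset.eq_of_subset_of_card_le ?_ ?_
    · intro u hu
      obtain ⟨hu1, hu2⟩ := Finset.mem_inter.1 hu
      simp only [Finset.mem_insert, Finset.mem_singleton]
      rcases hQall u hu2 with h | h | h | h
      · exact Or.inl h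
      · rw [h] at hu1; exact absurd hu1 hyNw
      · rw [h] at hu1; exact absurd hu1 (S.not_mem_N hwV)
      · exact Or.inr h
    · rw [S.faces_card hQ hwQ, Finset.card_pair (Ne.symm hzx)]
  refine ⟨z, hzV, hzx, ?_, ?_, hzQ, ?_, ?_⟩
  · have : z ∈ S.N y ∩ Q := by rw [hNy]; simp
    exact (Finset.mem_inter.1 this).1
  · have : z ∈ S.N w ∩ Q := by rw [hNw]; simp
    exact (Finset.mem_inter.1 this).1
  · rw [← hNy]; exact S.faces_eq hQ hyQ
  · rw [← hNw]; exact S.faces_eq hQ hwQ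

theorem pair_face_sub {j : ℕ} {F : Finset E} (hF : F ∈ S.faces j) {x y w : E} (hx : x ∈ F)
    (hy : y ∈ S.N x) (hyF : y ∈ F) (hw : w ∈ S.N x) (hwF : w ∈ F) : S.face x {y, w} ⊆ F := by
  have h : S.face x {y, w} ⊆ S.face x (S.N x ∩ F) := by
    apply S.face_mono
    intro u hu
    rcases Finset.mem_insert.1 hu with h | h
    · rw [h]; exact Finset.mem_inter.2 ⟨hy, hyF⟩
    · rw [Finset.mem_singleton.1 h]; exact Finset.mem_inter.2 ⟨hw, hwF⟩
  rwa [S.faces_eq hF hx] at h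

theorem facet_nbrs {F : Finset E} (hF : F ∈ S.faces (k - 1)) {x y w : E} (hx : x ∈ F)
    (hy : y ∈ S.N x) (hw : w ∈ S.N x) (hne : y ≠ w) : y ∈ F ∨ w ∈ F := by
  by_contra! hcon
  have hxV := S.faces_sub hF hx
  have h1 := Finset.card_sdiff_add_card_inter (S.N x) F
  rw [S.faces_card hF hx, S.card x hxV] at h1
  have h2 : ({y, w} : Finset E) ⊆ S.N x \ F := by
    intro u hu
    rcases Finset.mem_insert.1 hu with h | h
    · rw [h]; exact Finset.mem_sdiff.2 ⟨hy, hcon.1⟩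
    · rw [Finset.mem_singleton.1 h]; exact Finset.mem_sdiff.2 ⟨hw, hcon.2⟩
  have h3 := Finset.card_le_card h2
  rw [Finset.card_pair hne] at h3
  omega

/-- The facets at `v₀` missing `x`. -/
noncomputable def lab (v₀ x : E) : Finset E :=
  (S.N v₀).filter fun a => x ∉ S.face v₀ ((S.N v₀).erase a)

theorem mem_lab {v₀ x a : E} (ha : a ∈ S.N v₀) :
    a ∈ S.lab v₀ x ↔ x ∉ S.face v₀ ((S.N v₀).erase a) := by
  unfold lab
  rw [Finset.mem_filter]
  exact ⟨fun h => h.2, fun h => ⟨ha, h⟩⟩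

theorem lab_sub (v₀ x : E) : S.lab v₀ x ⊆ S.N v₀ := Finset.filter_subset _ _

theorem facet_mem {v₀ : E} (hv₀ : v₀ ∈ S.V) {a : E} (ha : a ∈ S.N v₀) :
    S.face v₀ ((S.N v₀).erase a) ∈ S.faces (k - 1) :=
  S.face_mem hv₀ (Finset.erase_subset _ _) (by rw [Finset.card_erase_of_mem ha, S.card v₀ hv₀])

theorem lab_base {v₀ : E} (hv₀ : v₀ ∈ S.V) : S.lab v₀ v₀ = ∅ := by
  rw [Finset.eq_empty_iff_forall_notMem]
  intro a ha
  rw [S.mem_lab (S.lab_sub _ _ ha)] at ha
  exact ha (S.self_mem_face hv₀ _)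

theorem lab_nbr {v₀ : E} (hv₀ : v₀ ∈ S.V) {a : E} (ha : a ∈ S.N v₀) : S.lab v₀ a = {a} := by
  ext c
  rw [Finset.mem_singleton]
  constructor
  · intro hc
    have hcN := S.lab_sub _ _ hc
    rw [S.mem_lab hcN] at hc
    by_contra hne
    exact hc (S.mem_face_of_mem hv₀ (Finset.erase_subset _ _)
      (Finset.mem_erase.2 ⟨Ne.symm hne, ha⟩))
  · rintro rfl
    rw [S.mem_lab ha]
    intro h
    have h1 : c ∈ S.N v₀ ∩ S.face v₀ ((S.N v₀).erase c) := Finset.mem_inter.2 ⟨ha, h⟩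
    rw [S.N_inter_face hv₀ (Finset.erase_subset _ _)] at h1
    exact (Finset.notMem_erase c _) h1

theorem eq_of_lab_empty {v₀ : E} (hv₀ : v₀ ∈ S.V) {x : E} (hx : x ∈ S.V)
    (h : S.lab v₀ x = ∅) : x = v₀ := by
  obtain ⟨c, -, hxc⟩ := S.cone v₀ hv₀ x hx
  have hc : ∀ a ∈ S.N v₀, c a = 0 := by
    intro a ha
    obtain ⟨l, h0, h1, h2⟩ := S.exists_support hv₀ (Finset.erase_subset a (S.N v₀))
    have hxF : x ∈ S.face v₀ ((S.N v₀).erase a) := by
      by_contra hn
      have : a ∈ S.lab v₀ x := (S.mem_lab ha).2 hn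
      rw [h] at this
      simp at this
    have h3 := (h2 x hx).2.2 hxF
    rw [hxc, map_sum, Finset.sum_eq_single a] at h3
    · rw [map_smul, h1 a ha (Finset.notMem_erase a _), smul_eq_mul, mul_one] at h3
      exact h3
    · intro b hb hba
      rw [map_smul, h0 b (Finset.mem_erase.2 ⟨hba, hb⟩), smul_zero]
    · intro hn; exact absurd ha hn
  rw [Finset.sum_eq_zero (fun a ha => by rw [hc a ha, zero_smul])] at hxc
  exact sub_eq_zero.1 hxc

/-- The label of the fourth vertex. -/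
theorem fourth_label (h4 : ∀ Q ∈ S.faces 2, Q.card = 4) {v₀ : E} (hv₀ : v₀ ∈ S.V) {x : E}
    (hx : x ∈ S.V) {y w a b : E} (hy : y ∈ S.N x) (hw : w ∈ S.N x)
    (hya : S.lab v₀ y = symmDiff (S.lab v₀ x) {a}) (hwb : S.lab v₀ w = symmDiff (S.lab v₀ x) {b})
    (hab : a ≠ b) (hb : b ∈ S.N v₀) :
    ∃ z ∈ S.N y, z ∈ S.face x {y, w} ∧ S.lab v₀ z = symmDiff (S.lab v₀ y) {b} := by
  have hyw : y ≠ w := by
    rintro rfl
    rw [hya] at hwb
    have := symmDiff_right_injective _ hwb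
    exact hab (Finset.singleton_injective this)
  obtain ⟨z, hzV, hzx, hzy, hzw, hzQ, hQy, hQw⟩ := S.exists_fourth h4 hx hy hw hyw
  refine ⟨z, hzy, hzQ, ?_⟩
  have hyV := S.sub x hx hy
  have hwV := S.sub x hx hw
  have hsub := S.pair_sub hy hw
  have hyQ : y ∈ S.face x {y, w} := S.mem_face_of_mem hx hsub (Finset.mem_insert_self _ _)
  have hwQ : w ∈ S.face x {y, w} := S.mem_face_of_mem hx hsub
    (Finset.mem_insert_of_mem (Finset.mem_singleton_self _))
  ext c
  by_cases hc : c ∈ S.N v₀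
  · have hF := S.facet_mem hv₀ hc
    have my : c ∈ S.lab v₀ y ↔ c ∈ symmDiff (S.lab v₀ x) {a} := by rw [hya]
    have mw : c ∈ S.lab v₀ w ↔ c ∈ symmDiff (S.lab v₀ x) {b} := by rw [hwb]
    rw [Finset.mem_symmDiff, Finset.mem_singleton, S.mem_lab hc, S.mem_lab hc] at my mw
    rw [Finset.mem_symmDiff, Finset.mem_singleton, S.mem_lab hc, S.mem_lab hc]
    set F := S.face v₀ ((S.N v₀).erase c) with hFdef
    have fA : x ∈ F → y ∈ F → w ∈ F → z ∈ F := fun h1 h2 h3 =>
      S.pair_face_sub hF h1 hy h2 hw h3 hzQ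
    have fB : z ∈ F → y ∈ F ∨ w ∈ F := fun h =>
      S.facet_nbrs hF h (S.symm y hyV z hzy) (S.symm w hwV z hzw) hyw
    have fC : x ∈ F → w ∈ F → z ∈ F → y ∈ F := fun h1 h2 h3 =>
      S.pair_face_sub hF h2 (S.symm x hx w hw) h1 hzw h3 (by rw [hQw]; exact hyQ)
    have fC' : x ∈ F → y ∈ F → z ∈ F → w ∈ F := fun h1 h2 h3 =>
      S.pair_face_sub hF h2 (S.symm x hx y hy) h1 hzy h3 (by rw [hQy]; exact hwQ)
    have fD : y ∈ F → x ∈ F ∨ z ∈ F := fun h =>
      S.facet_nbrs hF h (S.symm x hx y hy) hzy hzx.symm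
    have fD' : w ∈ F → x ∈ F ∨ z ∈ F := fun h =>
      S.facet_nbrs hF h (S.symm x hx w hw) hzw hzx.symm
    exact prop_aux (fun h h' => hab (h.symm.trans h')) my mw fA fB fC fC' fD fD'
  · have h1 : c ∉ S.lab v₀ z := fun h => hc (S.lab_sub _ _ h)
    have h2 : c ∉ symmDiff (S.lab v₀ y) {b} := by
      rw [Finset.mem_symmDiff, Finset.mem_singleton]
      rintro (h | h)
      · exact hc (S.lab_sub _ _ h.1)
      · exact hc (h.1 ▸ hb)
    exact ⟨fun h => absurd h h1, fun h => absurd h h2⟩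

/-- The labels of the neighbours are the neighbours of the label. -/
theorem labels (h4 : ∀ Q ∈ S.faces 2, Q.card = 4) {v₀ : E} (hv₀ : v₀ ∈ S.V) :
    ∀ x ∈ S.V, ∀ a ∈ S.N v₀, ∃ y ∈ S.N x, S.lab v₀ y = symmDiff (S.lab v₀ x) {a} := by
  classical
  set A := S.V.filter fun x => ∀ a ∈ S.N v₀, ∃ y ∈ S.N x,
    S.lab v₀ y = symmDiff (S.lab v₀ x) {a} with hA
  have hAV : A = S.V := by
    refine S.connected (Finset.filter_subset _ _) ⟨v₀, ?_⟩ ?_
    · rw [hA, Finset.mem_filter]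
      refine ⟨hv₀, fun a ha => ⟨a, ha, ?_⟩⟩
      rw [S.lab_nbr hv₀ ha, S.lab_base hv₀, ← Finset.bot_eq_empty, bot_symmDiff]
    · intro x hx y hy
      rw [hA, Finset.mem_filter] at hx ⊢
      obtain ⟨hxV, hxH⟩ := hx
      refine ⟨S.sub x hxV hy, fun b hb => ?_⟩
      choose! f hf1 hf2 using hxH
      have hinj : Set.InjOn f (S.N v₀ : Set E) := by
        intro c hc c' hc' hcc
        have h1 := hf2 c hc
        rw [hcc, hf2 c' hc'] at h1
        exact (Finset.singleton_injective (symmDiff_right_injective _ h1)).symm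
      have himg : (S.N v₀).image f = S.N x := by
        refine Finset.eq_of_subset_of_card_le ?_ ?_
        · intro u hu
          obtain ⟨c, hc, rfl⟩ := Finset.mem_image.1 hu
          exact hf1 c hc
        · rw [Finset.card_image_of_injOn hinj, S.card x hxV, S.card v₀ hv₀]
      rw [← himg] at hy
      obtain ⟨a, ha, rfl⟩ := Finset.mem_image.1 hy
      by_cases hab : a = b
      · subst hab
        refine ⟨x, S.symm x hxV _ (hf1 a ha), ?_⟩
        rw [hf2 a ha, symmDiff_symmDiff_cancel_right]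
      · obtain ⟨z, hz1, -, hz2⟩ := S.fourth_label h4 hv₀ hxV (hf1 a ha) (hf1 b hb) (hf2 a ha)
          (hf2 b hb) hab hb
        exact ⟨z, hz1, hz2⟩
  intro x hx
  rw [← hAV, hA, Finset.mem_filter] at hx
  exact hx.2

theorem nbr_label (h4 : ∀ Q ∈ S.faces 2, Q.card = 4) {v₀ : E} (hv₀ : v₀ ∈ S.V) {x : E}
    (hx : x ∈ S.V) : ∃ f : E → E, (∀ a ∈ S.N v₀, f a ∈ S.N x ∧
      S.lab v₀ (f a) = symmDiff (S.lab v₀ x) {a}) ∧ Set.InjOn f (S.N v₀ : Set E) ∧
      (S.N v₀).image f = S.N x := by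
  have h := S.labels h4 hv₀ x hx
  choose! f hf1 hf2 using h
  have hinj : Set.InjOn f (S.N v₀ : Set E) := by
    intro c hc c' hc' hcc
    have h1 := hf2 c hc
    rw [hcc, hf2 c' hc'] at h1
    exact (Finset.singleton_injective (symmDiff_right_injective _ h1)).symm
  refine ⟨f, fun a ha => ⟨hf1 a ha, hf2 a ha⟩, hinj, ?_⟩
  refine Finset.eq_of_subset_of_card_le ?_ ?_
  · intro u hu
    obtain ⟨c, hc, rfl⟩ := Finset.mem_image.1 hu
    exact hf1 c hc
  · rw [Finset.card_image_of_injOn hinj, S.card x hx, S.card v₀ hv₀]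

theorem exists_label (h4 : ∀ Q ∈ S.faces 2, Q.card = 4) {v₀ : E} (hv₀ : v₀ ∈ S.V) {x : E}
    (hx : x ∈ S.V) {y : E} (hy : y ∈ S.N x) :
    ∃ a ∈ S.N v₀, S.lab v₀ y = symmDiff (S.lab v₀ x) {a} := by
  obtain ⟨f, hf, -, himg⟩ := S.nbr_label h4 hv₀ hx
  rw [← himg] at hy
  obtain ⟨a, ha, rfl⟩ := Finset.mem_image.1 hy
  exact ⟨a, ha, (hf a ha).2⟩

theorem nbr_unique (h4 : ∀ Q ∈ S.faces 2, Q.card = 4) {v₀ : E} (hv₀ : v₀ ∈ S.V) {x : E}
    (hx : x ∈ S.V) {y y' : E} (hy : y ∈ S.N x) (hy' : y' ∈ S.N x)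
    (h : S.lab v₀ y = S.lab v₀ y') : y = y' := by
  obtain ⟨f, hf, -, himg⟩ := S.nbr_label h4 hv₀ hx
  rw [← himg] at hy hy'
  obtain ⟨a, ha, rfl⟩ := Finset.mem_image.1 hy
  obtain ⟨b, hb, rfl⟩ := Finset.mem_image.1 hy'
  rw [(hf a ha).2, (hf b hb).2] at h
  rw [Finset.singleton_injective (symmDiff_right_injective _ h)]

omit [AddCommGroup E] [Module ℝ E] in
theorem card_symmDiff_singleton {s : Finset E} {a : E} (ha : a ∈ s) :
    (symmDiff s {a}).card + 1 = s.card := by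
  have h : symmDiff s {a} = s.erase a := by
    ext c
    rw [Finset.mem_symmDiff, Finset.mem_singleton, Finset.mem_erase]
    constructor
    · rintro (h | h)
      · exact ⟨h.2, h.1⟩
      · exact absurd (h.1 ▸ ha) h.2
    · rintro ⟨h1, h2⟩; exact Or.inl ⟨h2, h1⟩
  rw [h, Finset.card_erase_add_one ha]

theorem lab_inj (h4 : ∀ Q ∈ S.faces 2, Q.card = 4) {v₀ : E} (hv₀ : v₀ ∈ S.V) :
    ∀ n, ∀ x ∈ S.V, ∀ y ∈ S.V, (S.lab v₀ x).card = n → S.lab v₀ x = S.lab v₀ y → x = y := by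
  intro n
  induction n with
  | zero =>
    intro x hx y hy hn h
    have h0 := Finset.card_eq_zero.1 hn
    rw [S.eq_of_lab_empty hv₀ hx h0, S.eq_of_lab_empty hv₀ hy (h ▸ h0)]
  | succ n ih =>
    intro x hx y hy hn h
    have hne : (S.lab v₀ x).Nonempty := by
      rw [← Finset.card_pos, hn]; exact Nat.succ_pos n
    obtain ⟨a, ha⟩ := hne
    have haN := S.lab_sub _ _ ha
    obtain ⟨x', hx', hxl⟩ := S.labels h4 hv₀ x hx a haN
    obtain ⟨y', hy', hyl⟩ := S.labels h4 hv₀ y hy a haN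
    have hx'V := S.sub x hx hx'
    have hc := card_symmDiff_singleton ha
    rw [← hxl, hn] at hc
    have h1 := ih x' hx'V y' (S.sub y hy hy') (by omega) (by rw [hxl, hyl, h])
    subst h1
    exact S.nbr_unique h4 hv₀ hx'V (S.symm x hx x' hx') (S.symm y hy x' hy') h

theorem lab_surj (h4 : ∀ Q ∈ S.faces 2, Q.card = 4) {v₀ : E} (hv₀ : v₀ ∈ S.V) (I : Finset E)
    (hI : I ⊆ S.N v₀) : ∃ x ∈ S.V, S.lab v₀ x = I := by
  induction I using Finset.induction_on with
  | empty => exact ⟨v₀, hv₀, S.lab_base hv₀⟩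
  | insert a I ha ih =>
    obtain ⟨x, hx, hxI⟩ := ih ((Finset.subset_insert _ _).trans hI)
    obtain ⟨y, hy, hyl⟩ := S.labels h4 hv₀ x hx a (hI (Finset.mem_insert_self _ _))
    refine ⟨y, S.sub x hx hy, ?_⟩
    rw [hyl, hxI]
    ext c
    rw [Finset.mem_symmDiff, Finset.mem_singleton, Finset.mem_insert]
    constructor
    · rintro (h | h)
      · exact Or.inr h.1
      · exact Or.inl h.1
    · rintro (h | h)
      · subst h; exact Or.inr ⟨rfl, ha⟩
      · exact Or.inl ⟨h, fun hc => ha (hc ▸ h)⟩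

/-- The neighbours with labels in `I`. -/
noncomputable def nbr (v₀ : E) (I : Finset E) (x : E) : Finset E :=
  (S.N x).filter fun y => symmDiff (S.lab v₀ y) (S.lab v₀ x) ⊆ I

theorem mem_nbr_iff (h4 : ∀ Q ∈ S.faces 2, Q.card = 4) {v₀ : E} (hv₀ : v₀ ∈ S.V) {I : Finset E}
    {x : E} (hx : x ∈ S.V) {y : E} : y ∈ S.nbr v₀ I x ↔
      y ∈ S.N x ∧ ∃ a ∈ S.N v₀, a ∈ I ∧ S.lab v₀ y = symmDiff (S.lab v₀ x) {a} := by
  unfold nbr
  rw [Finset.mem_filter]
  refine and_congr_right fun hy => ?_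
  constructor
  · intro h
    obtain ⟨a, ha, hya⟩ := S.exists_label h4 hv₀ hx hy
    refine ⟨a, ha, ?_, hya⟩
    rw [hya, symmDiff_comm, symmDiff_symmDiff_cancel_left] at h
    exact Finset.singleton_subset_iff.1 h
  · rintro ⟨a, -, haI, hya⟩
    rw [hya, symmDiff_comm, symmDiff_symmDiff_cancel_left]
    exact Finset.singleton_subset_iff.2 haI

theorem card_nbr (h4 : ∀ Q ∈ S.faces 2, Q.card = 4) {v₀ : E} (hv₀ : v₀ ∈ S.V) {I : Finset E}
    (hI : I ⊆ S.N v₀) {x : E} (hx : x ∈ S.V) : (S.nbr v₀ I x).card = I.card := by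
  obtain ⟨f, hf, hinj, himg⟩ := S.nbr_label h4 hv₀ hx
  have h : S.nbr v₀ I x = I.image f := by
    ext y
    rw [S.mem_nbr_iff h4 hv₀ hx, Finset.mem_image]
    constructor
    · rintro ⟨hy, a, ha, haI, hya⟩
      refine ⟨a, haI, ?_⟩
      exact S.nbr_unique h4 hv₀ hx (hf a ha).1 hy ((hf a ha).2.trans hya.symm)
    · rintro ⟨a, haI, rfl⟩
      exact ⟨(hf a (hI haI)).1, a, hI haI, haI, (hf a (hI haI)).2⟩
  rw [h, Finset.card_image_of_injOn (hinj.mono (by exact_mod_cast hI))]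

theorem face_nbr (h4 : ∀ Q ∈ S.faces 2, Q.card = 4) {v₀ : E} (hv₀ : v₀ ∈ S.V) {I : Finset E}
    (hI : I ⊆ S.N v₀) {x : E} (hx : x ∈ S.V) {z : E} (hz : z ∈ S.V) :
    z ∈ S.face x (S.nbr v₀ I x) ↔ symmDiff (S.lab v₀ z) (S.lab v₀ x) ⊆ I := by
  classical
  have hT : S.nbr v₀ I x ⊆ S.N x := Finset.filter_subset _ _
  set F := S.face x (S.nbr v₀ I x) with hF
  have hFf : F ∈ S.faces I.card := S.face_mem hx hT (S.card_nbr h4 hv₀ hI hx)
  set A := F.filter fun u => symmDiff (S.lab v₀ u) (S.lab v₀ x) ⊆ I ∧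
    S.N u ∩ F = S.nbr v₀ I u with hA
  have hAF : A = F := by
    have h := (S.sub_sys hx hT).connected (A := A) (Finset.filter_subset _ _) ⟨x, ?_⟩ ?_
    · exact h
    · rw [hA, Finset.mem_filter]
      refine ⟨S.self_mem_face hx _, ?_, S.N_inter_face hx hT⟩
      rw [symmDiff_self]
      exact Finset.empty_subset _
    · intro u hu w hw
      change w ∈ S.N u ∩ F at hw
      rw [hA, Finset.mem_filter] at hu ⊢
      obtain ⟨huF, huI, huN⟩ := hu
      have huV := S.faces_sub hFf huF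
      obtain ⟨hwN, hwF⟩ := Finset.mem_inter.1 hw
      have hwV := S.faces_sub hFf hwF
      rw [huN, S.mem_nbr_iff h4 hv₀ huV] at hw
      obtain ⟨-, a, ha, haI, hwa⟩ := hw
      refine ⟨hwF, ?_, ?_⟩
      · have h1 : symmDiff (S.lab v₀ w) (S.lab v₀ x) ⊆
            symmDiff (S.lab v₀ u) (S.lab v₀ x) ∪ {a} := by
          rw [hwa]
          intro c hc
          simp only [Finset.mem_symmDiff, Finset.mem_singleton, Finset.mem_union] at hc ⊢
          tauto
        refine h1.trans (Finset.union_subset huI (Finset.singleton_subset_iff.2 haI))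
      · symm
        refine Finset.eq_of_subset_of_card_le ?_ ?_
        · intro t ht
          rw [S.mem_nbr_iff h4 hv₀ hwV] at ht
          obtain ⟨htN, b, hb, hbI, htb⟩ := ht
          refine Finset.mem_inter.2 ⟨htN, ?_⟩
          by_cases hab : a = b
          · subst hab
            have : t = u := by
              refine S.nbr_unique h4 hv₀ hwV htN (S.symm u huV w hwN) ?_
              rw [htb, hwa, symmDiff_symmDiff_cancel_right]
            rw [this]
            exact huF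
          · obtain ⟨t', ht', ht'b⟩ := S.labels h4 hv₀ u huV b hb
            have ht'F : t' ∈ S.N u ∩ F := by
              rw [huN, S.mem_nbr_iff h4 hv₀ huV]
              exact ⟨ht', b, hb, hbI, ht'b⟩
            obtain ⟨s, hs1, hs2, hs3⟩ := S.fourth_label h4 hv₀ huV hwN ht' hwa ht'b hab hb
            have : t = s := S.nbr_unique h4 hv₀ hwV htN hs1 (htb.trans hs3.symm)
            rw [this]
            exact S.pair_face_sub hFf huF hwN hwF ht' (Finset.mem_inter.1 ht'F).2 hs2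
        · rw [S.faces_card hFf hwF, S.card_nbr h4 hv₀ hI hwV]
  constructor
  · intro h
    rw [← hAF, hA, Finset.mem_filter] at h
    exact h.2.1
  · intro h
    obtain ⟨n, hn⟩ : ∃ n, (symmDiff (S.lab v₀ z) (S.lab v₀ x)).card = n := ⟨_, rfl⟩
    induction n generalizing z with
    | zero =>
      have h1 := symmDiff_eq_bot.1 (Finset.card_eq_zero.1 hn)
      rw [S.lab_inj h4 hv₀ _ z hz x hx rfl h1]
      exact S.self_mem_face hx _
    | succ n ih =>
      have hne : (symmDiff (S.lab v₀ z) (S.lab v₀ x)).Nonempty := by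
        rw [← Finset.card_pos, hn]; exact Nat.succ_pos n
      obtain ⟨a, ha⟩ := hne
      have haN : a ∈ S.N v₀ := hI (h ha)
      obtain ⟨u, hu, hul⟩ := S.labels h4 hv₀ z hz a haN
      have huV := S.sub z hz hu
      have h2 : symmDiff (S.lab v₀ u) (S.lab v₀ x) =
          symmDiff (symmDiff (S.lab v₀ z) (S.lab v₀ x)) {a} := by
        rw [hul, symmDiff_assoc, symmDiff_assoc, symmDiff_comm ({a} : Finset E)]
      have h3 := card_symmDiff_singleton ha
      rw [← h2, hn] at h3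
      have h5 : symmDiff (S.lab v₀ u) (S.lab v₀ x) ⊆ I := by
        rw [h2]
        intro c hc
        rw [Finset.mem_symmDiff, Finset.mem_singleton] at hc
        rcases hc with hc | hc
        · exact h hc.1
        · rw [hc.1]; exact h ha
      have huF := ih huV h5 (by omega)
      have huA := huF
      rw [← hAF, hA, Finset.mem_filter] at huA
      have h6 : z ∈ S.N u ∩ F := by
        rw [huA.2.2, S.mem_nbr_iff h4 hv₀ huV]
        refine ⟨S.symm z hz u hu, a, haN, h ha, ?_⟩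
        rw [hul, symmDiff_symmDiff_cancel_right]
      exact (Finset.mem_inter.1 h6).2

theorem nbr_of_sub (h4 : ∀ Q ∈ S.faces 2, Q.card = 4) {v₀ : E} (hv₀ : v₀ ∈ S.V) {x : E}
    (hx : x ∈ S.V) {T : Finset E} (hT : T ⊆ S.N x) :
    ∃ I, I ⊆ S.N v₀ ∧ S.nbr v₀ I x = T := by
  classical
  refine ⟨(S.N v₀).filter fun a => ∃ y ∈ T, S.lab v₀ y = symmDiff (S.lab v₀ x) {a},
    Finset.filter_subset _ _, ?_⟩
  ext y
  rw [S.mem_nbr_iff h4 hv₀ hx]
  constructor
  · rintro ⟨hy, a, ha, haI, hya⟩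
    obtain ⟨y', hy', hy'a⟩ := (Finset.mem_filter.1 haI).2
    rw [S.nbr_unique h4 hv₀ hx hy (hT hy') (hya.trans hy'a.symm)]
    exact hy'
  · intro hy
    obtain ⟨a, ha, hya⟩ := S.exists_label h4 hv₀ hx (hT hy)
    exact ⟨hT hy, a, ha, Finset.mem_filter.2 ⟨ha, y, hy, hya⟩, hya⟩

/-- The labelling of the vertices by the subsets of a `k`-set. -/
theorem exists_labels (hne : S.V.Nonempty) (h4 : ∀ Q ∈ S.faces 2, Q.card = 4) :
    ∃ σ : E → Finset (Fin k), Set.BijOn σ (S.V : Set E) Set.univ ∧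
      (∀ x ∈ S.V, ∀ T, T ⊆ S.N x → ∃ I : Finset (Fin k), ∀ z ∈ S.V,
        (z ∈ S.face x T ↔ symmDiff (σ z) (σ x) ⊆ I)) ∧
      (∀ x ∈ S.V, ∀ I : Finset (Fin k), ∃ T, T ⊆ S.N x ∧ ∀ z ∈ S.V,
        (z ∈ S.face x T ↔ symmDiff (σ z) (σ x) ⊆ I)) := by
  classical
  obtain ⟨v₀, hv₀⟩ := hne
  let ε : S.N v₀ ≃ Fin k := Finset.equivFinOfCardEq (S.card v₀ hv₀)
  let g : Finset E → Finset (Fin k) := fun I => Finset.univ.filter fun i => (ε.symm i : E) ∈ I
  have hg : ∀ I i, i ∈ g I ↔ (ε.symm i : E) ∈ I := fun I i => by simp [g]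
  have hsurj : ∀ a ∈ S.N v₀, ∃ i, (ε.symm i : E) = a := fun a ha =>
    ⟨ε ⟨a, ha⟩, by rw [Equiv.symm_apply_apply]⟩
  have hgsub : ∀ I J, I ⊆ S.N v₀ → (g I ⊆ g J ↔ I ⊆ J) := by
    intro I J hI
    constructor
    · intro h a ha
      obtain ⟨i, rfl⟩ := hsurj a (hI ha)
      exact (hg J i).1 (h ((hg I i).2 ha))
    · intro h i hi
      exact (hg J i).2 (h ((hg I i).1 hi))
  have hgsymm : ∀ I J, symmDiff (g I) (g J) = g (symmDiff I J) := by
    intro I J
    ext i
    simp only [Finset.mem_symmDiff, hg]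
  have hginv : ∀ J : Finset (Fin k), ∃ I, I ⊆ S.N v₀ ∧ g I = J := by
    intro J
    refine ⟨J.image fun i => (ε.symm i : E), ?_, ?_⟩
    · intro a ha
      obtain ⟨i, -, rfl⟩ := Finset.mem_image.1 ha
      exact (ε.symm i).2
    · ext i
      rw [hg, Finset.mem_image]
      constructor
      · rintro ⟨j, hj, hji⟩
        rwa [← ε.symm.injective (Subtype.ext hji)]
      · intro hi
        exact ⟨i, hi, rfl⟩
  have hsd : ∀ x y, symmDiff (S.lab v₀ x) (S.lab v₀ y) ⊆ S.N v₀ := by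
    intro x y a ha
    rw [Finset.mem_symmDiff] at ha
    rcases ha with h | h
    · exact S.lab_sub _ _ h.1
    · exact S.lab_sub _ _ h.1
  refine ⟨fun x => g (S.lab v₀ x), ⟨fun _ _ => Set.mem_univ _, ?_, ?_⟩, ?_, ?_⟩
  · intro x hx y hy h
    refine S.lab_inj h4 hv₀ _ x hx y hy rfl (Finset.Subset.antisymm ?_ ?_)
    · exact (hgsub _ _ (S.lab_sub _ _)).1 (subset_of_eq h)
    · exact (hgsub _ _ (S.lab_sub _ _)).1 (subset_of_eq h.symm)
  · intro J _
    obtain ⟨I, hI, rfl⟩ := hginv J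
    obtain ⟨x, hx, rfl⟩ := S.lab_surj h4 hv₀ I hI
    exact ⟨x, hx, rfl⟩
  · intro x hx T hT
    obtain ⟨I, hI, rfl⟩ := S.nbr_of_sub h4 hv₀ hx hT
    refine ⟨g I, fun z hz => ?_⟩
    rw [S.face_nbr h4 hv₀ hI hx hz, hgsymm, hgsub _ _ (hsd _ _)]
  · intro x hx J
    obtain ⟨I, hI, rfl⟩ := hginv J
    refine ⟨S.nbr v₀ I x, Finset.filter_subset _ _, fun z hz => ?_⟩
    rw [S.face_nbr h4 hv₀ hI hx hz, hgsymm, hgsub _ _ (hsd _ _)]

end Sys

end Pool.Agent.Lib.MP_257afc_co
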