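import Pool.Agent.Lib.MP_257afc_co.Basic
import Pool.Agent.Lib.MP_257afc_co.Hull

/-!
Exposed faces of simple polytopes, and the cube.
-/

namespace Pool.Agent.Lib.MP_257afc_co

open Finset Module

namespace Sys

section Expo

variable {E : Type*} [NormedAddCommGroup E] [NormedSpace ℝ E] [FiniteDimensional ℝ E] {d : ℕ}
  (P : Sys E d)

/-- The supporting functional of a face, as a continuous functional to be maximised. -/
theorem exists_clm {v : E} (hv : v ∈ P.V) {T : Finset E} (hT : T ⊆ P.N v) :
    ∃ l : E →L[ℝ] ℝ, (∀ z ∈ P.face v T, l z = l v) ∧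
      ∀ z ∈ P.V, z ∉ P.face v T → l z < l v := by
  obtain ⟨l, -, -, h⟩ := P.exists_support hv hT
  refine ⟨-(LinearMap.toContinuousLinearMap l), fun z hz => ?_, fun z hz hzT => ?_⟩
  · have h1 := (h z (P.face_sub v T hz)).2.2 hz
    rw [map_sub, sub_eq_zero] at h1
    simp only [_root_.neg_apply, LinearMap.coe_toContinuousLinearMap', h1]
  · have h1 := h z hz
    have h2 : l (z - v) ≠ 0 := fun h0 => hzT (h1.2.1 h0)
    have h3 := lt_of_le_of_ne h1.1 h2.symm
    rw [map_sub, sub_pos] at h3
    simp only [_root_.neg_apply, LinearMap.coe_toContinuousLinearMap']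
    exact neg_lt_neg h3

theorem face_isExposed {v : E} (hv : v ∈ P.V) {T : Finset E} (hT : T ⊆ P.N v) :
    IsExposed ℝ (convexHull ℝ (P.V : Set E)) (convexHull ℝ (P.face v T : Set E)) := by
  obtain ⟨l, h1, h2⟩ := P.exists_clm hv hT
  exact exposed_hull l (l v) (P.face_sub v T) h1 h2 ⟨v, P.self_mem_face hv T⟩

omit [FiniteDimensional ℝ E] in
theorem face_nonempty {v : E} (hv : v ∈ P.V) (T : Finset E) :
    (convexHull ℝ (P.face v T : Set E)).Nonempty :=
  ⟨v, subset_convexHull ℝ _ (by exact_mod_cast P.self_mem_face hv T)⟩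

omit [FiniteDimensional ℝ E] in
theorem finrank_face {v : E} (hv : v ∈ P.V) {T : Finset E} (hT : T ⊆ P.N v) :
    finrank ℝ (affineSpan ℝ (convexHull ℝ (P.face v T : Set E))).direction = T.card := by
  rw [affineSpan_convexHull, direction_affineSpan, vectorSpan_eq_span_vsub_set_right ℝ
    (show v ∈ (P.face v T : Set E) by exact_mod_cast P.self_mem_face hv T)]
  have h : ((fun x : E => x -ᵥ v) '' (P.face v T : Set E)) =
      ((fun w => w - v) '' (P.face v T : Set E)) := rfl
  rw [h, P.span_face hv hT, P.finrank_span hv hT]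

omit [FiniteDimensional ℝ E] in
theorem face_empty {v : E} (hv : v ∈ P.V) : P.face v ∅ = {v} := by
  ext x
  rw [mem_face, Finset.mem_singleton]
  constructor
  · rintro ⟨-, h⟩
    have : x - v = 0 := by simpa using h
    exact sub_eq_zero.1 this
  · rintro rfl
    exact ⟨hv, by simp⟩

theorem extremePoints_eq :
    (convexHull ℝ (P.V : Set E)).extremePoints ℝ = (P.V : Set E) := by
  apply Set.Subset.antisymm extremePoints_convexHull_subset
  intro v hv
  have hv' : v ∈ P.V := by exact_mod_cast hv
  have h := P.face_isExposed hv' (Finset.empty_subset (P.N v))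
  rw [P.face_empty hv', Finset.coe_singleton, convexHull_singleton] at h
  exact h.isExtreme.extremePoints_subset_extremePoints (by simp)

/-- The vertex sets of the exposed faces. -/
theorem exposed_iff (A : Set E) :
    (∃ G : Set E, IsExposed ℝ (convexHull ℝ (P.V : Set E)) G ∧ A = G ∩ (P.V : Set E)) ↔
      (A = ∅ ∨ ∃ z ∈ P.V, ∃ T ⊆ P.N z, A = (P.face z T : Set E)) := by
  classical
  constructor
  · rintro ⟨G, hG, rfl⟩
    rcases G.eq_empty_or_nonempty with rfl | hne
    · left; simp
    right
    obtain ⟨l, m, h1, ⟨z, hz, hzm⟩, h2⟩ := exposed_cases hG hne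
    refine ⟨z, hz, (P.N z).filter (fun w => l w = m), Finset.filter_subset _ _, ?_⟩
    ext x
    rw [h2 x]
    have hmem : x ∈ (P.face z ((P.N z).filter (fun w => l w = m)) : Set E) ↔
        x ∈ P.V ∧ x - z ∈ Submodule.span ℝ
          ((fun w => w - z) '' (((P.N z).filter (fun w => l w = m) : Finset E) : Set E)) := by
      rw [Finset.mem_coe, mem_face]
    rw [hmem]
    refine and_congr_right fun hx => ⟨fun hxm => ?_, fun hxs => ?_⟩
    · obtain ⟨c, hc, hxc⟩ := P.cone z hz x hx
      have hsum : ∑ w ∈ P.N z, c w * (m - l w) = 0 := by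
        have e1 : l (x - z) = ∑ w ∈ P.N z, c w * l (w - z) := by
          rw [hxc, map_sum]
          exact Finset.sum_congr rfl fun w _ => by rw [map_smul, smul_eq_mul]
        rw [map_sub, hxm, hzm, sub_self] at e1
        have e2 : ∑ w ∈ P.N z, c w * (m - l w) = -∑ w ∈ P.N z, c w * l (w - z) := by
          rw [← Finset.sum_neg_distrib]
          exact Finset.sum_congr rfl fun w _ => by rw [map_sub, hzm]; ring
        rw [e2, ← e1, neg_zero]
      rw [Finset.sum_eq_zero_iff_of_nonneg (fun w hw =>
        mul_nonneg (hc w hw) (sub_nonneg.2 (h1 w (P.sub z hz hw))))] at hsum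
      rw [hxc]
      refine Submodule.sum_mem _ fun w hw => ?_
      by_cases hwm : l w = m
      · exact Submodule.smul_mem _ _ (Submodule.subset_span
          ⟨w, by exact_mod_cast Finset.mem_filter.2 ⟨hw, hwm⟩, rfl⟩)
      · have : c w = 0 := by
          rcases mul_eq_zero.1 (hsum w hw) with h | h
          · exact h
          · exact absurd (sub_eq_zero.1 h).symm hwm
        rw [this, zero_smul]
        exact Submodule.zero_mem _
    · have h3 : l.toLinearMap (x - z) = 0 := by
        refine span_zero (T := (P.N z).filter (fun w => l w = m)) (fun w hw => ?_) hxs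
        have hw' := (Finset.mem_filter.1 hw).2
        change l (w - z) = 0
        rw [map_sub, hw', hzm, sub_self]
      have h4 : l (x - z) = 0 := h3
      rw [map_sub, hzm, sub_eq_zero] at h4
      exact h4
  · rintro (rfl | ⟨z, hz, T, hT, rfl⟩)
    · exact ⟨∅, fun h => absurd rfl h.ne_empty, by simp⟩
    · refine ⟨_, P.face_isExposed hz hT, ?_⟩
      obtain ⟨l, h1, h2⟩ := P.exists_clm hz hT
      ext x
      constructor
      · intro hx
        exact ⟨subset_convexHull ℝ _ hx, by exact_mod_cast P.face_sub z T (by exact_mod_cast hx)⟩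
      · rintro ⟨hx, hxV⟩
        have hxV' : x ∈ P.V := by exact_mod_cast hxV
        by_contra hxT
        have hlt := h2 x hxV' (by exact_mod_cast hxT)
        have hconv : Convex ℝ {y : E | l y = l z} := by
          intro a ha b hb s t _ _ hst
          simp only [Set.mem_ofPred_eq] at ha hb ⊢
          rw [map_add, map_smul, map_smul, ha, hb, ← add_smul, hst, one_smul]
        have : l x = l z := convexHull_min (fun y hy => h1 y (by exact_mod_cast hy)) hconv hx
        exact absurd this hlt.ne

end Expo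

end Sys

section Cube

variable {k : ℕ}

/-- Flipping one coordinate of a vertex of the cube. -/
def flip (i : Fin k) (p : Fin k → ℝ) : Fin k → ℝ := Function.update p i (1 - p i)

theorem flip_sub (i : Fin k) (p : Fin k → ℝ) :
    flip i p - p = (1 - 2 * p i) • (Pi.single i (1 : ℝ) : Fin k → ℝ) := by
  ext j
  rcases eq_or_ne j i with rfl | h
  · simp [flip]; ring
  · simp [flip, h]

theorem flip_flip (i : Fin k) (p : Fin k → ℝ) : flip i (flip i p) = p := by
  ext j
  rcases eq_or_ne j i with rfl | h
  · simp [flip]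
  · simp [flip, h]

/-- The vertices of the cube. -/
noncomputable def cubeV (k : ℕ) : Finset (Fin k → ℝ) :=
  Fintype.piFinset fun _ => {0, 1}

theorem mem_cubeV {p : Fin k → ℝ} : p ∈ cubeV k ↔ ∀ i, p i = 0 ∨ p i = 1 := by
  simp [cubeV]

theorem sq_one {p : Fin k → ℝ} (hp : p ∈ cubeV k) (i : Fin k) :
    (1 - 2 * p i) * (1 - 2 * p i) = 1 := by
  rcases mem_cubeV.1 hp i with h | h <;> rw [h] <;> norm_num

theorem flip_mem {p : Fin k → ℝ} (hp : p ∈ cubeV k) (i : Fin k) : flip i p ∈ cubeV k := by
  rw [mem_cubeV] at hp ⊢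
  intro j
  rcases eq_or_ne j i with rfl | h
  · rcases hp j with h | h <;> simp [flip, h]
  · simpa [flip, h] using hp j

theorem flip_inj {p : Fin k → ℝ} (hp : p ∈ cubeV k) :
    Function.Injective fun i : Fin k => flip i p := by
  intro i j hij
  by_contra hne
  have h : flip i p - p = flip j p - p := by
    have : flip i p = flip j p := hij
    rw [this]
  rw [flip_sub, flip_sub] at h
  have h1 := congrFun h i
  simp [hne] at h1
  have h2 := sq_one hp i
  rw [h1] at h2
  norm_num at h2

open Classical in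
/-- The neighbours of a vertex of the cube. -/
noncomputable def cubeN (p : Fin k → ℝ) : Finset (Fin k → ℝ) :=
  Finset.univ.image fun i : Fin k => flip i p

theorem mem_cubeN {p q : Fin k → ℝ} : q ∈ cubeN p ↔ ∃ i, flip i p = q := by
  classical
  simp [cubeN]

theorem cube_li {p : Fin k → ℝ} (hp : p ∈ cubeV k) :
    LinearIndependent ℝ (fun w : cubeN p => (w : Fin k → ℝ) - p) := by
  classical
  let e : Fin k → cubeN p := fun i => ⟨flip i p, mem_cubeN.2 ⟨i, rfl⟩⟩
  have he : Function.Bijective e := by
    constructor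
    · intro i j h
      exact flip_inj hp (Subtype.ext_iff.1 h)
    · rintro ⟨w, hw⟩
      obtain ⟨i, hi⟩ := mem_cubeN.1 hw
      exact ⟨i, Subtype.ext hi⟩
  rw [← linearIndependent_equiv (Equiv.ofBijective e he)]
  have h : (fun w : cubeN p => (w : Fin k → ℝ) - p) ∘ (Equiv.ofBijective e he) =
      fun i => (1 - 2 * p i) • (Pi.single i (1 : ℝ) : Fin k → ℝ) := by
    funext i
    exact flip_sub i p
  rw [h, Fintype.linearIndependent_iff]
  intro g hg i
  have h1 := congrFun hg i
  rw [Finset.sum_apply] at h1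
  simp only [Pi.smul_apply, smul_eq_mul, Pi.zero_apply] at h1
  rw [Finset.sum_eq_single i] at h1
  · simp only [Pi.single_eq_same, mul_one] at h1
    have h2 := sq_one hp i
    rcases mul_eq_zero.1 h1 with h3 | h3
    · exact h3
    · rw [h3] at h2; norm_num at h2
  · intro j _ hj
    simp [Pi.single_eq_of_ne hj.symm]
  · simp

theorem cube_cone {p x : Fin k → ℝ} (hp : p ∈ cubeV k) (hx : x ∈ cubeV k) :
    ∃ c : (Fin k → ℝ) → ℝ, (∀ w ∈ cubeN p, 0 ≤ c w) ∧
      x - p = ∑ w ∈ cubeN p, c w • (w - p) := by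
  classical
  refine ⟨fun w => ∑ i : Fin k, |x i - p i| * (if flip i p = w then 1 else 0), ?_, ?_⟩
  · intro w _
    refine Finset.sum_nonneg fun i _ => mul_nonneg (abs_nonneg _) ?_
    split_ifs <;> norm_num
  · rw [cubeN, Finset.sum_image fun i _ j _ h => flip_inj hp h]
    have h : ∀ i : Fin k, (∑ j : Fin k, |x j - p j| * (if flip j p = flip i p then (1 : ℝ) else 0)) =
        |x i - p i| := by
      intro i
      rw [Finset.sum_eq_single i]
      · simp
      · intro j _ hj
        rw [if_neg (fun h => hj (flip_inj hp h)), mul_zero]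
      · simp
    ext i
    rw [Finset.sum_apply]
    simp only [h, flip_sub, Pi.smul_apply, Pi.sub_apply, smul_eq_mul]
    rw [Finset.sum_eq_single i]
    · rw [Pi.single_eq_same, mul_one]
      rcases mem_cubeV.1 hp i with h1 | h1 <;> rcases mem_cubeV.1 hx i with h2 | h2 <;>
        rw [h1, h2] <;> norm_num
    · intro j _ hj
      simp [Pi.single_eq_of_ne hj.symm]
    · simp

open Classical in
/-- The cube as a simple polytope. -/
noncomputable def cubeSys (k : ℕ) : Sys (Fin k → ℝ) k where
  V := cubeV k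
  N := cubeN
  sub := by
    intro p hp q hq
    obtain ⟨i, rfl⟩ := mem_cubeN.1 hq
    exact flip_mem hp i
  card := by
    intro p hp
    rw [cubeN, Finset.card_image_of_injective _ (flip_inj hp), Finset.card_univ, Fintype.card_fin]
  li _ hp := cube_li hp
  cone _ hp _ hx := cube_cone hp hx
  symm := by
    intro p _ q hq
    obtain ⟨i, rfl⟩ := mem_cubeN.1 hq
    exact mem_cubeN.2 ⟨i, flip_flip i p⟩

theorem mem_cubeSys_V {p : Fin k → ℝ} : p ∈ (cubeSys k).V ↔ ∀ i, p i = 0 ∨ p i = 1 :=
  mem_cubeV

theorem coe_cubeSys_V :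
    ((cubeSys k).V : Set (Fin k → ℝ)) = {x : Fin k → ℝ | ∀ i, x i = 0 ∨ x i = 1} := by
  ext p
  exact mem_cubeSys_V

theorem mem_cubeSys_N {p q : Fin k → ℝ} : q ∈ (cubeSys k).N p ↔ ∃ i, flip i p = q :=
  mem_cubeN

theorem mem_cube_face {p : Fin k → ℝ} (hp : p ∈ (cubeSys k).V) {T : Finset (Fin k → ℝ)}
    (hT : T ⊆ (cubeSys k).N p) {x : Fin k → ℝ} :
    x ∈ (cubeSys k).face p T ↔ x ∈ (cubeSys k).V ∧ ∀ i, x i ≠ p i → flip i p ∈ T := by
  classical
  rw [Sys.mem_face]
  refine and_congr_right fun hx => ⟨fun h i hi => ?_, fun h => ?_⟩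
  · by_contra hiT
    have h1 : (LinearMap.proj i : (Fin k → ℝ) →ₗ[ℝ] ℝ) (x - p) = 0 := by
      refine Sys.span_zero (fun w hw => ?_) h
      obtain ⟨j, rfl⟩ := mem_cubeN.1 (hT hw)
      have hji : i ≠ j := by
        rintro rfl
        exact hiT hw
      rw [flip_sub]
      simp [hji]
    simp only [LinearMap.proj_apply, Pi.sub_apply] at h1
    exact hi (sub_eq_zero.1 h1)
  · have hsum : x - p = ∑ i : Fin k, (x i - p i) • (Pi.single i (1 : ℝ) : Fin k → ℝ) := by
      ext j
      rw [Finset.sum_apply, Finset.sum_eq_single j]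
      · simp
      · intro i _ hij
        simp [Pi.single_eq_of_ne hij.symm]
      · simp
    rw [hsum]
    refine Submodule.sum_mem _ fun i _ => ?_
    by_cases hi : x i = p i
    · rw [hi, sub_self, zero_smul]; exact Submodule.zero_mem _
    · have h1 : (x i - p i) • (Pi.single i (1 : ℝ) : Fin k → ℝ) =
          ((x i - p i) * (1 - 2 * p i)) • (flip i p - p) := by
        rw [flip_sub, smul_smul, mul_assoc, sq_one hp i, mul_one]
      rw [h1]
      exact Submodule.smul_mem _ _ (Submodule.subset_span
        ⟨flip i p, by exact_mod_cast h i hi, rfl⟩)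

end Cube

end Pool.Agent.Lib.MP_257afc_co
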