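import Pool.Agent.Lib.MP_257afc_co.Basic

/-!
Counting faces of simple polytopes.
-/

namespace Pool.Agent.Lib.MP_257afc_co

open Finset Module

namespace Sys

variable {E : Type*} [AddCommGroup E] [Module ℝ E] [DecidableEq E] {d : ℕ} (S : Sys E d)

/-- The faces of dimension `j`. -/
noncomputable def faces (j : ℕ) : Finset (Finset E) :=
  S.V.biUnion fun v => (powersetCard j (S.N v)).image (S.face v)

theorem mem_faces {j : ℕ} {F : Finset E} :
    F ∈ S.faces j ↔ ∃ v ∈ S.V, ∃ T, T ⊆ S.N v ∧ T.card = j ∧ S.face v T = F := by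
  unfold faces
  simp only [Finset.mem_biUnion, Finset.mem_image, Finset.mem_powersetCard, and_assoc]

theorem faces_sub {j : ℕ} {F : Finset E} (hF : F ∈ S.faces j) : F ⊆ S.V := by
  obtain ⟨v, -, T, -, -, rfl⟩ := S.mem_faces.1 hF
  exact S.face_sub v T

theorem faces_nonempty {j : ℕ} {F : Finset E} (hF : F ∈ S.faces j) : F.Nonempty := by
  obtain ⟨v, hv, T, -, -, rfl⟩ := S.mem_faces.1 hF
  exact ⟨v, S.self_mem_face hv T⟩

theorem faces_card {j : ℕ} {F : Finset E} (hF : F ∈ S.faces j) {x : E} (hx : x ∈ F) :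
    (S.N x ∩ F).card = j := by
  obtain ⟨v, hv, T, hT, rfl, rfl⟩ := S.mem_faces.1 hF
  exact S.card_inter hv hT hx

theorem faces_eq {j : ℕ} {F : Finset E} (hF : F ∈ S.faces j) {x : E} (hx : x ∈ F) :
    S.face x (S.N x ∩ F) = F := by
  obtain ⟨v, hv, T, hT, rfl, rfl⟩ := S.mem_faces.1 hF
  exact S.face_eq hv hT hx

theorem face_mem {x : E} (hx : x ∈ S.V) {T : Finset E} (hT : T ⊆ S.N x) {j : ℕ}
    (hj : T.card = j) : S.face x T ∈ S.faces j :=
  S.mem_faces.2 ⟨x, hx, T, hT, hj, rfl⟩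

theorem card_faces_at (j : ℕ) (P : Finset E → Prop) [DecidablePred P] {x : E} (hx : x ∈ S.V) :
    (((S.faces j).filter P).filter fun F => x ∈ F).card =
      ((powersetCard j (S.N x)).filter fun T => P (S.face x T)).card := by
  symm
  refine Finset.card_nbij' (fun T => S.face x T) (fun F => S.N x ∩ F) ?_ ?_ ?_ ?_
  · intro T hT
    simp only [Finset.coe_filter, Finset.mem_powersetCard, Set.mem_ofPred_eq] at hT
    simp only [Finset.coe_filter, Finset.mem_filter, Set.mem_ofPred_eq]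
    exact ⟨⟨S.face_mem hx hT.1.1 hT.1.2, hT.2⟩, S.self_mem_face hx T⟩
  · intro F hF
    simp only [Finset.coe_filter, Finset.mem_filter, Set.mem_ofPred_eq] at hF
    simp only [Finset.coe_filter, Finset.mem_powersetCard, Set.mem_ofPred_eq]
    refine ⟨⟨Finset.inter_subset_left, S.faces_card hF.1.1 hF.2⟩, ?_⟩
    rw [S.faces_eq hF.1.1 hF.2]
    exact hF.1.2
  · intro T hT
    simp only [Finset.coe_filter, Finset.mem_powersetCard, Set.mem_ofPred_eq] at hT
    exact S.N_inter_face hx hT.1.1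
  · intro F hF
    simp only [Finset.coe_filter, Finset.mem_filter, Set.mem_ofPred_eq] at hF
    exact S.faces_eq hF.1.1 hF.2

/-- Counting pairs of a vertex and a face. -/
theorem sum_card (j : ℕ) (P : Finset E → Prop) [DecidablePred P] :
    ∑ F ∈ (S.faces j).filter P, F.card =
      ∑ x ∈ S.V, ((powersetCard j (S.N x)).filter fun T => P (S.face x T)).card := by
  have h := Finset.sum_card_bipartiteAbove_eq_sum_card_bipartiteBelow
    (s := (S.faces j).filter P) (t := S.V) (fun (F : Finset E) (x : E) => x ∈ F)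
  have h1 : ∑ F ∈ (S.faces j).filter P, F.card =
      ∑ F ∈ (S.faces j).filter P, (S.V.bipartiteAbove (fun (F : Finset E) (x : E) => x ∈ F) F).card := by
    refine Finset.sum_congr rfl fun F hF => ?_
    congr 1
    ext x
    simp only [Finset.bipartiteAbove, Finset.mem_filter]
    exact ⟨fun hx => ⟨S.faces_sub (Finset.mem_filter.1 hF).1 hx, hx⟩, fun hx => hx.2⟩
  rw [h1, h]
  refine Finset.sum_congr rfl fun x hx => ?_
  exact S.card_faces_at j P hx

theorem sum_card_all (j : ℕ) : ∑ F ∈ S.faces j, F.card = S.V.card * d.choose j := by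
  have h := S.sum_card j (fun _ => True)
  simp only [Finset.filter_true] at h
  rw [h, Finset.sum_congr rfl (g := fun _ => d.choose j), Finset.sum_const, smul_eq_mul]
  intro x hx
  rw [Finset.card_powersetCard, S.card x hx]

theorem exists_generic : ∃ φ : E →ₗ[ℝ] ℝ, ∀ x ∈ S.V, ∀ y ∈ S.V, φ x = φ y → x = y := by
  obtain ⟨f, hf⟩ := Module.exists_dual_forall_apply_ne_zero (K := ℝ)
    (fun p : {p : S.V × S.V // p.1 ≠ p.2} => (p.1.1 : E) - (p.1.2 : E))
    (fun p => by
      intro h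
      exact p.2 (Subtype.ext (sub_eq_zero.1 h)))
  refine ⟨f, fun x hx y hy hxy => ?_⟩
  by_contra hne
  refine hf ⟨(⟨x, hx⟩, ⟨y, hy⟩), fun h => hne (congrArg Subtype.val h)⟩ ?_
  rw [map_sub, sub_eq_zero]
  exact hxy

theorem min_face (φ : E →ₗ[ℝ] ℝ) {x : E} (hx : x ∈ S.V) {T : Finset E} (hT : T ⊆ S.N x)
    (h : ∀ w ∈ T, φ x ≤ φ w) {y : E} (hy : y ∈ S.face x T) : φ x ≤ φ y := by
  refine (S.sub_sys hx hT).local_min φ (S.self_mem_face hx T) (fun w hw => h w ?_) hy
  change w ∈ S.N x ∩ S.face x T at hw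
  rw [S.N_inter_face hx hT] at hw
  exact hw

theorem card_faces_up (φ : E →ₗ[ℝ] ℝ) (hφ : ∀ x ∈ S.V, ∀ y ∈ S.V, φ x = φ y → x = y) (j : ℕ) :
    (S.faces j).card = ∑ x ∈ S.V, (((S.N x).filter fun w => φ x < φ w).card.choose j) := by
  have h1 : ∑ x ∈ S.V, (((S.N x).filter fun w => φ x < φ w).card.choose j) =
      (S.V.sigma fun x => powersetCard j ((S.N x).filter fun w => φ x < φ w)).card := by
    rw [Finset.card_sigma]
    exact Finset.sum_congr rfl fun x _ => (Finset.card_powersetCard _ _).symm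
  rw [h1]
  symm
  refine Finset.card_bij (fun p _ => S.face p.1 p.2) ?_ ?_ ?_
  · rintro ⟨x, T⟩ hp
    simp only [Finset.mem_sigma, Finset.mem_powersetCard] at hp
    exact S.face_mem hp.1 (hp.2.1.trans (Finset.filter_subset _ _)) hp.2.2
  · rintro ⟨x, T⟩ hp ⟨y, U⟩ hq h
    simp only [Finset.mem_sigma, Finset.mem_powersetCard] at hp hq
    dsimp only at h
    have hT := hp.2.1.trans (Finset.filter_subset _ _)
    have hU := hq.2.1.trans (Finset.filter_subset _ _)
    have h2 : φ x ≤ φ y := by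
      refine S.min_face φ hp.1 hT (fun w hw => ?_) (h ▸ S.self_mem_face hq.1 U)
      exact (Finset.mem_filter.1 (hp.2.1 hw)).2.le
    have h3 : φ y ≤ φ x := by
      refine S.min_face φ hq.1 hU (fun w hw => ?_) (h ▸ S.self_mem_face hp.1 T)
      exact (Finset.mem_filter.1 (hq.2.1 hw)).2.le
    have h4 := hφ x hp.1 y hq.1 (le_antisymm h2 h3)
    subst h4
    have h5 := S.N_inter_face hp.1 hT
    rw [h, S.N_inter_face hq.1 hU] at h5
    rw [h5]
  · intro F hF
    obtain ⟨x, hx, hmin⟩ := Finset.exists_min_image F φ (S.faces_nonempty hF)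
    have hxV := S.faces_sub hF hx
    refine ⟨⟨x, S.N x ∩ F⟩, ?_, S.faces_eq hF hx⟩
    simp only [Finset.mem_sigma, Finset.mem_powersetCard]
    refine ⟨hxV, fun w hw => ?_, S.faces_card hF hx⟩
    have hw' := Finset.mem_inter.1 hw
    refine Finset.mem_filter.2 ⟨hw'.1, lt_of_le_of_ne (hmin w hw'.2) fun he => ?_⟩
    exact S.ne_of_mem hxV hw'.1 (hφ x hxV w (S.sub x hxV hw'.1) he).symm

theorem exists_updown : ∃ u w : E → ℕ, (∀ x ∈ S.V, u x + w x = d) ∧
    ∀ j, (S.faces j).card = ∑ x ∈ S.V, (u x).choose j ∧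
      (S.faces j).card = ∑ x ∈ S.V, (w x).choose j := by
  obtain ⟨φ, hφ⟩ := S.exists_generic
  refine ⟨fun x => ((S.N x).filter fun w => φ x < φ w).card,
    fun x => ((S.N x).filter fun w => (-φ) x < (-φ) w).card, fun x hx => ?_, fun j =>
    ⟨S.card_faces_up φ hφ j, S.card_faces_up (-φ) (fun x hx y hy h => hφ x hx y hy ?_) j⟩⟩
  · refine Eq.trans ?_ (S.card x hx)
    rw [← Finset.card_union_of_disjoint]
    · congr 1
      ext w
      simp only [Finset.mem_union, Finset.mem_filter, LinearMap.neg_apply, neg_lt_neg_iff]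
      constructor
      · rintro (h | h) <;> exact h.1
      · intro hw
        rcases lt_trichotomy (φ x) (φ w) with h | h | h
        · exact Or.inl ⟨hw, h⟩
        · exact absurd (hφ x hx w (S.sub x hx hw) h).symm (S.ne_of_mem hx hw)
        · exact Or.inr ⟨hw, h⟩
    · rw [Finset.disjoint_left]
      intro w h1 h2
      simp only [Finset.mem_filter, LinearMap.neg_apply, neg_lt_neg_iff] at h1 h2
      exact lt_asymm h1.2 h2.2
  · simpa using h

theorem two_mul_faces (j : ℕ) : S.V.card * ((d + 1) / 2).choose j ≤ 2 * (S.faces j).card := by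
  obtain ⟨u, w, huw, h⟩ := S.exists_updown
  have h1 : 2 * (S.faces j).card = ∑ x ∈ S.V, ((u x).choose j + (w x).choose j) := by
    rw [Finset.sum_add_distrib, ← (h j).1, ← (h j).2]; ring
  rw [h1, ← smul_eq_mul, ← Finset.sum_const]
  refine Finset.sum_le_sum fun x hx => ?_
  have h2 := huw x hx
  rcases le_or_gt ((d + 1) / 2) (u x) with h3 | h3
  · exact (Nat.choose_le_choose j h3).trans (Nat.le_add_right _ _)
  · exact (Nat.choose_le_choose j (show (d + 1) / 2 ≤ w x by omega)).trans (Nat.le_add_left _ _)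

theorem two_choose_two (n : ℕ) : (2 * (n.choose 2 : ℤ)) = n * (n - 1) := by
  have h : ((n.choose 2 : ℕ) : ℚ) = n * (n - 1) / 2 := Nat.cast_choose_two ℚ n
  have h2 : ((2 * (n.choose 2 : ℤ) : ℤ) : ℚ) = ((n * (n - 1) : ℤ) : ℚ) := by
    push_cast
    rw [h]; ring
  exact_mod_cast h2

theorem eight_mul_faces : (S.V.card : ℤ) * (d * (d - 2)) ≤ 8 * (S.faces 2).card := by
  obtain ⟨u, w, huw, h⟩ := S.exists_updown
  have h1 : 8 * ((S.faces 2).card : ℤ) =
      ∑ x ∈ S.V, (4 * ((u x).choose 2 : ℤ) + 4 * ((w x).choose 2 : ℤ)) := by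
    have ha : ((S.faces 2).card : ℤ) = ∑ x ∈ S.V, ((u x).choose 2 : ℤ) := by
      exact_mod_cast (h 2).1
    have hb : ((S.faces 2).card : ℤ) = ∑ x ∈ S.V, ((w x).choose 2 : ℤ) := by
      exact_mod_cast (h 2).2
    rw [Finset.sum_add_distrib, ← Finset.mul_sum, ← Finset.mul_sum, ← ha, ← hb]; ring
  rw [h1]
  have h0 : (S.V.card : ℤ) * (d * (d - 2)) = ∑ _x ∈ S.V, ((d : ℤ) * (d - 2)) := by
    rw [Finset.sum_const, nsmul_eq_mul]
  rw [h0]
  refine Finset.sum_le_sum fun x hx => ?_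
  have h2 : (u x : ℤ) + w x = d := by exact_mod_cast huw x hx
  have h3 := two_choose_two (u x)
  have h4 := two_choose_two (w x)
  have h5 : (4 * ((u x).choose 2 : ℤ) + 4 * ((w x).choose 2 : ℤ)) =
      2 * (u x * (u x - 1)) + 2 * (w x * (w x - 1)) := by rw [← h3, ← h4]; ring
  rw [h5, ← h2]
  nlinarith [sq_nonneg ((u x : ℤ) - w x)]

end Sys

end Pool.Agent.Lib.MP_257afc_co
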