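import Pool.Agent.Lib.MP_257afc_co.Good

/-!
Simplex faces of simple polytopes.
-/

namespace Pool.Agent.Lib.MP_257afc_co

open Finset Module

namespace Sys

variable {E : Type*} [AddCommGroup E] [Module ℝ E] [DecidableEq E] {d : ℕ} (S : Sys E d)

omit [DecidableEq E] in
theorem mem_face_empty {x y : E} (hy : y ∈ S.face x ∅) : y = x := by
  have h := (S.mem_face.1 hy).2
  have h2 : y - x = 0 := by simpa using h
  exact sub_eq_zero.1 h2

omit [DecidableEq E] in
/-- A functional exposing a vertex. -/
theorem exists_vertex {y : E} (hy : y ∈ S.V) :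
    ∃ l : E →ₗ[ℝ] ℝ, ∀ z ∈ S.V, z ≠ y → 0 < l (z - y) := by
  obtain ⟨l, -, -, h2⟩ := S.exists_support hy (Finset.empty_subset (S.N y))
  refine ⟨l, fun z hz hne => lt_of_le_of_ne (h2 z hz).1 fun h => hne ?_⟩
  exact S.mem_face_empty ((h2 z hz).2.1 h.symm)

/-- The vertices are in convex position. -/
theorem convex_position {y : E} (hy : y ∈ S.V) {A : Finset E} (hA : A ⊆ S.V) {c : E → ℝ}
    (hc : ∀ z ∈ A, 0 ≤ c z) (hsum : ∑ z ∈ A, c z = 1) (hyc : y = ∑ z ∈ A, c z • z) : y ∈ A := by
  by_contra hyA
  obtain ⟨l, hl⟩ := S.exists_vertex hy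
  have h1 : ∑ z ∈ A, c z * l (z - y) = 0 := by
    have h2 : ∑ z ∈ A, c z • (z - y) = 0 := by
      simp only [smul_sub]
      rw [Finset.sum_sub_distrib, ← hyc, ← Finset.sum_smul, hsum, one_smul, sub_self]
    have h3 := congrArg l h2
    rw [map_sum, map_zero] at h3
    rw [← h3]
    exact Finset.sum_congr rfl fun z _ => by rw [map_smul, smul_eq_mul]
  have hpos : ∀ z ∈ A, 0 < l (z - y) := fun z hz =>
    hl z (hA hz) (fun h => hyA (h ▸ hz))
  rw [Finset.sum_eq_zero_iff_of_nonneg fun z hz => mul_nonneg (hc z hz) (hpos z hz).le] at h1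
  have h4 : ∀ z ∈ A, c z = 0 := fun z hz => by
    rcases mul_eq_zero.1 (h1 z hz) with h | h
    · exact h
    · exact absurd h (hpos z hz).ne'
  rw [Finset.sum_eq_zero h4] at hsum
  exact zero_ne_one hsum

/-- If the neighbour `a` of `x` is adjacent to all elements of `W ⊆ N x`, then the face at `x`
spanned by `a` and `W` is a simplex. -/
theorem simplex_face {x : E} (hx : x ∈ S.V) {a : E} (ha : a ∈ S.N x) {W : Finset E}
    (hW : W ⊆ S.N x ∩ S.N a) : S.face x (insert a W) = insert x (insert a W) := by
  have hWx : W ⊆ S.N x := hW.trans Finset.inter_subset_left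
  have hWa : W ⊆ S.N a := hW.trans Finset.inter_subset_right
  have hT : insert a W ⊆ S.N x := by
    intro y hy
    rcases Finset.mem_insert.1 hy with h | h
    · exact h ▸ ha
    · exact hWx h
  have haV := S.sub x hx ha
  apply Finset.Subset.antisymm
  · intro y hy
    obtain ⟨c, hc, hyc⟩ := S.cone_face hx hT (S.self_mem_face hx _) hy
    rw [S.N_inter_face hx hT] at hc hyc
    obtain ⟨l, h0, h1, h2⟩ := S.exists_support haV hWa
    have hlx : l (x - a) = 1 :=
      h1 x (S.symm x hx a ha) (fun h => S.not_mem_N hx (hWx h))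
    have hlT : ∀ w ∈ insert a W, l (w - a) = 0 := by
      intro w hw
      rcases Finset.mem_insert.1 hw with h | h
      · rw [h, sub_self, map_zero]
      · exact h0 w h
    have hlTx : ∀ w ∈ insert a W, l (w - x) = -1 := by
      intro w hw
      have h3 : w - x = (w - a) - (x - a) := by abel
      rw [h3, map_sub, hlT w hw, hlx]; ring
    have hyV := S.face_sub _ _ hy
    have h3 : 0 ≤ l (y - a) := (h2 y hyV).1
    have h4 : l (y - a) = 1 - ∑ w ∈ insert a W, c w := by
      have h5 : y - a = (y - x) + (x - a) := by abel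
      rw [h5, map_add, hlx, hyc, map_sum]
      have h6 : ∑ w ∈ insert a W, l (c w • (w - x)) = -∑ w ∈ insert a W, c w := by
        rw [← Finset.sum_neg_distrib]
        refine Finset.sum_congr rfl fun w hw => ?_
        rw [map_smul, smul_eq_mul, hlTx w hw]; ring
      rw [h6]; ring
    have hxT : x ∉ insert a W := fun h => S.not_mem_N hx (hT h)
    have hif : ∀ z ∈ insert a W, (if z = x then 1 - ∑ w ∈ insert a W, c w else c z) = c z :=
      fun z hz => by
        rw [if_neg]
        rintro rfl
        exact hxT hz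
    refine S.convex_position hyV (A := insert x (insert a W))
      (c := fun z => if z = x then 1 - ∑ w ∈ insert a W, c w else c z) ?_ ?_ ?_ ?_
    · intro z hz
      rcases Finset.mem_insert.1 hz with h | h
      · exact h ▸ hx
      · exact S.sub x hx (hT h)
    · intro z hz
      split_ifs with h
      · linarith
      · exact hc z ((Finset.mem_insert.1 hz).resolve_left h)
    · rw [Finset.sum_insert hxT, if_pos rfl, Finset.sum_congr rfl hif, sub_add_cancel]
    · rw [Finset.sum_insert hxT, if_pos rfl,
        Finset.sum_congr rfl (fun z hz => by rw [hif z hz] :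
          ∀ z ∈ insert a W, (if z = x then 1 - ∑ w ∈ insert a W, c w else c z) • z = c z • z)]
      have h9 : ∑ w ∈ insert a W, c w • (w - x) =
          ∑ w ∈ insert a W, c w • w - (∑ w ∈ insert a W, c w) • x := by
        rw [Finset.sum_smul, ← Finset.sum_sub_distrib]
        exact Finset.sum_congr rfl fun w _ => smul_sub _ _ _
      rw [h9] at hyc
      generalize ∑ w ∈ insert a W, c w • w = P at *
      generalize ∑ w ∈ insert a W, c w = s at *
      rw [sub_eq_iff_eq_add] at hyc
      rw [hyc, sub_smul, one_smul]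
      abel
  · intro y hy
    rcases Finset.mem_insert.1 hy with h | h
    · rw [h]
      exact S.self_mem_face hx _
    · exact S.mem_face_of_mem hx hT h

end Sys

end Pool.Agent.Lib.MP_257afc_co
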