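import Pool.Agent.Lib.MP_257afc_co.Cube
import Pool.Agent.Lib.MP_257afc_co.Simp
import Pool.Agent.Lib.MP_257afc_co.Expo
import Pool.Agent.Lib.MP_257afc_co.Geo

/-!
Simplex and cube faces of simple polytopes.
-/

namespace Pool.Agent.Lib.MP_257afc_co

open Finset Module

/-- The 0/1 vector of a set. -/
noncomputable def chi {k : ℕ} (I : Finset (Fin k)) : Fin k → ℝ := fun i => if i ∈ I then 1 else 0

theorem chi_mem {k : ℕ} (I : Finset (Fin k)) : ∀ i, chi I i = 0 ∨ chi I i = 1 := by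
  intro i
  unfold chi
  split_ifs
  · exact Or.inr rfl
  · exact Or.inl rfl

theorem chi_inj {k : ℕ} : Function.Injective (chi (k := k)) := by
  intro I J h
  ext i
  have h1 := congrFun h i
  unfold chi at h1
  by_cases hI : i ∈ I <;> by_cases hJ : i ∈ J <;> simp_all

theorem chi_ne {k : ℕ} {I J : Finset (Fin k)} {i : Fin k} :
    chi I i ≠ chi J i ↔ i ∈ symmDiff I J := by
  rw [Finset.mem_symmDiff]
  unfold chi
  by_cases hI : i ∈ I <;> by_cases hJ : i ∈ J <;> simp [hI, hJ]

theorem exists_chi {k : ℕ} {p : Fin k → ℝ} (hp : ∀ i, p i = 0 ∨ p i = 1) :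
    ∃ I : Finset (Fin k), chi I = p := by
  classical
  refine ⟨Finset.univ.filter fun i => p i = 1, ?_⟩
  funext i
  unfold chi
  rcases hp i with h | h <;> simp [h]

section

variable {E : Type*} [NormedAddCommGroup E] [NormedSpace ℝ E] [FiniteDimensional ℝ E]
  [DecidableEq E] {d : ℕ} (P : Sys E d)

/-- The conclusion of the theorem for a set `F`. -/
def Concl (E : Type*) [NormedAddCommGroup E] [NormedSpace ℝ E] (k : ℕ) (F : Set E) : Prop :=
  (∃ T : Finset E, T.card = k + 1 ∧ AffineIndependent ℝ (fun x : T => (x : E)) ∧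
    F = convexHull ℝ (T : Set E)) ∨
  (∃ e : Set.extremePoints ℝ F ≃ {x : Fin k → ℝ | ∀ i, x i = 0 ∨ x i = 1},
    ∀ A : Set (Set.extremePoints ℝ F),
      (∃ G : Set E, IsExposed ℝ F G ∧ Subtype.val '' A = G ∩ Set.extremePoints ℝ F) ↔
      (∃ H : Set (Fin k → ℝ),
        IsExposed ℝ (convexHull ℝ {x : Fin k → ℝ | ∀ i, x i = 0 ∨ x i = 1}) H ∧
        Subtype.val '' (e '' A) = H ∩ {x : Fin k → ℝ | ∀ i, x i = 0 ∨ x i = 1}))

omit [FiniteDimensional ℝ E] [DecidableEq E] in
theorem simplex_concl {k : ℕ} {v : E} (hv : v ∈ P.V) {T : Finset E} (hT : T ⊆ P.N v)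
    (hk : T.card = k) (hc : (P.face v T).card = k + 1) :
    Concl E k (convexHull ℝ (P.face v T : Set E)) := by
  left
  refine ⟨P.face v T, hc, ?_, rfl⟩
  rw [affineIndependent_iff_finrank_vectorSpan_eq ℝ _
    (show Fintype.card (P.face v T) = k + 1 by rw [Fintype.card_coe, hc])]
  have h := P.finrank_face hv hT
  rw [affineSpan_convexHull, direction_affineSpan, hk] at h
  rw [← h]
  congr 2 <;> simp

omit [FiniteDimensional ℝ E] in
theorem sub_face {v : E} (hv : v ∈ P.V) {T : Finset E} (hT : T ⊆ P.N v) {x : E}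
    (hx : x ∈ P.face v T) {U : Finset E} (hU : U ⊆ P.N x ∩ P.face v T) :
    (P.sub_sys hv hT).face x U = P.face x U := by
  ext y
  rw [Sys.mem_face, Sys.mem_face]
  change (y ∈ P.face v T ∧ _) ↔ _
  constructor
  · rintro ⟨h1, h2⟩
    exact ⟨P.face_sub v T h1, h2⟩
  · rintro ⟨h1, h2⟩
    refine ⟨?_, h2⟩
    have h3 := P.face_mono hU (P.mem_face.2 ⟨h1, h2⟩)
    rwa [P.face_eq hv hT hx] at h3

theorem cube_concl {k : ℕ} (S : Sys E k) (hne : S.V.Nonempty)
    (h4 : ∀ Q ∈ S.faces 2, Q.card = 4) : Concl E k (convexHull ℝ (S.V : Set E)) := by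
  classical
  right
  obtain ⟨σ, hσ, hσ1, hσ2⟩ := S.exists_labels hne h4
  have hext := S.extremePoints_eq
  -- the correspondence of faces
  have hface : ∀ z ∈ S.V, ∀ y ∈ S.V, ∀ U ⊆ (cubeSys k).N (chi (σ z)), ∀ I : Finset (Fin k),
      (∀ i, i ∈ I ↔ flip i (chi (σ z)) ∈ U) →
      (chi (σ y) ∈ (cubeSys k).face (chi (σ z)) U ↔ symmDiff (σ y) (σ z) ⊆ I) := by
    intro z _ y _ U hU I hI
    rw [mem_cube_face (mem_cubeSys_V.2 (chi_mem _)) hU]
    constructor
    · rintro ⟨-, h⟩ i hi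
      exact (hI i).2 (h i (chi_ne.2 hi))
    · intro h
      exact ⟨mem_cubeSys_V.2 (chi_mem _), fun i hi => (hI i).1 (h (chi_ne.1 hi))⟩
  have key : ∀ A : Set E, A ⊆ (S.V : Set E) →
      ((A = ∅ ∨ ∃ z ∈ S.V, ∃ T ⊆ S.N z, A = (S.face z T : Set E)) ↔
      ((fun z => chi (σ z)) '' A = ∅ ∨ ∃ p ∈ (cubeSys k).V, ∃ U ⊆ (cubeSys k).N p,
        (fun z => chi (σ z)) '' A = ((cubeSys k).face p U : Set (Fin k → ℝ)))) := by
    intro A hA
    constructor
    · rintro (rfl | ⟨z, hz, T, hT, rfl⟩)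
      · left; simp
      right
      obtain ⟨I, hI⟩ := hσ1 z hz T hT
      have hU : I.image (fun i => flip i (chi (σ z))) ⊆ (cubeSys k).N (chi (σ z)) := by
        intro q hq
        obtain ⟨i, -, rfl⟩ := Finset.mem_image.1 hq
        exact mem_cubeSys_N.2 ⟨i, rfl⟩
      have hIU : ∀ i, i ∈ I ↔ flip i (chi (σ z)) ∈ I.image (fun i => flip i (chi (σ z))) := by
        intro i
        constructor
        · intro hi
          exact Finset.mem_image_of_mem _ hi
        · intro hi
          obtain ⟨j, hj, hji⟩ := Finset.mem_image.1 hi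
          have : j = i := flip_inj (mem_cubeSys_V.2 (chi_mem (σ z))) hji
          rwa [← this]
      refine ⟨chi (σ z), mem_cubeSys_V.2 (chi_mem _), _, hU, ?_⟩
      ext x
      constructor
      · rintro ⟨y, hy, rfl⟩
        have hy' : y ∈ S.face z T := by exact_mod_cast hy
        have hyV := S.face_sub z T hy'
        exact_mod_cast (hface z hz y hyV _ hU I hIU).2 ((hI y hyV).1 hy')
      · intro hx
        have hx' : x ∈ (cubeSys k).face (chi (σ z)) (I.image (fun i => flip i (chi (σ z)))) := by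
          exact_mod_cast hx
        obtain ⟨J, rfl⟩ := exists_chi (mem_cubeSys_V.1 ((cubeSys k).face_sub _ _ hx'))
        obtain ⟨y, hy, hyJ⟩ := hσ.surjOn (Set.mem_univ J)
        have hyV : y ∈ S.V := by exact_mod_cast hy
        rw [← hyJ] at hx'
        refine ⟨y, ?_, by simp only [hyJ]⟩
        exact_mod_cast (hI y hyV).2 ((hface z hz y hyV _ hU I hIU).1 hx')
    · rintro (h | ⟨p, hp, U, hU, hAU⟩)
      · left
        exact Set.image_eq_empty.1 h
      right
      obtain ⟨J, rfl⟩ := exists_chi (mem_cubeSys_V.1 hp)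
      obtain ⟨z, hz, hzJ⟩ := hσ.surjOn (Set.mem_univ J)
      have hzV : z ∈ S.V := by exact_mod_cast hz
      subst hzJ
      obtain ⟨T, hT, hTI⟩ := hσ2 z hzV (Finset.univ.filter fun i => flip i (chi (σ z)) ∈ U)
      refine ⟨z, hzV, T, hT, ?_⟩
      ext y
      have hIU : ∀ i, i ∈ (Finset.univ.filter fun i => flip i (chi (σ z)) ∈ U) ↔
          flip i (chi (σ z)) ∈ U := fun i => by simp
      constructor
      · intro hy
        have hyV : y ∈ S.V := by exact_mod_cast hA hy
        have h1 : chi (σ y) ∈ ((cubeSys k).face (chi (σ z)) U : Set (Fin k → ℝ)) := by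
          rw [← hAU]; exact ⟨y, hy, rfl⟩
        exact_mod_cast (hTI y hyV).2 ((hface z hzV y hyV U hU _ hIU).1 (by exact_mod_cast h1))
      · intro hy
        have hy' : y ∈ S.face z T := by exact_mod_cast hy
        have hyV := S.face_sub z T hy'
        have h1 : chi (σ y) ∈ ((cubeSys k).face (chi (σ z)) U : Set (Fin k → ℝ)) := by
          exact_mod_cast (hface z hzV y hyV U hU _ hIU).2 ((hTI y hyV).1 hy')
        rw [← hAU] at h1
        obtain ⟨y', hy'A, hyy⟩ := h1
        have h2 : σ y' = σ y := chi_inj hyy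
        have h3 := hσ.injOn (hA hy'A) (by exact_mod_cast hyV) h2
        rwa [← h3]
  -- the bijection
  let f : Set.extremePoints ℝ (convexHull ℝ (S.V : Set E)) →
      {x : Fin k → ℝ | ∀ i, x i = 0 ∨ x i = 1} := fun z => ⟨chi (σ z), chi_mem _⟩
  have hf : Function.Bijective f := by
    constructor
    · rintro ⟨z, hz⟩ ⟨z', hz'⟩ h
      have h1 : chi (σ z) = chi (σ z') := Subtype.ext_iff.1 h
      rw [hext] at hz hz'
      exact Subtype.ext (hσ.injOn hz hz' (chi_inj h1))
    · rintro ⟨p, hp⟩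
      obtain ⟨J, rfl⟩ := exists_chi hp
      obtain ⟨z, hz, hzJ⟩ := hσ.surjOn (Set.mem_univ J)
      refine ⟨⟨z, by rw [hext]; exact hz⟩, Subtype.ext ?_⟩
      change chi (σ z) = chi J
      rw [hzJ]
  refine ⟨Equiv.ofBijective f hf, fun A => ?_⟩
  have h1 := S.exposed_iff (Subtype.val '' A)
  have h2 := (cubeSys k).exposed_iff (Subtype.val '' ((Equiv.ofBijective f hf) '' A))
  have hA : Subtype.val '' A ⊆ (S.V : Set E) := by
    rintro _ ⟨⟨z, hz⟩, -, rfl⟩
    rwa [hext] at hz
  have himg : Subtype.val '' ((Equiv.ofBijective f hf) '' A) =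
      (fun z => chi (σ z)) '' (Subtype.val '' A) := by
    rw [Set.image_image, Set.image_image]
    rfl
  rw [coe_cubeSys_V] at h2
  have h0 : (∃ G : Set E, IsExposed ℝ (convexHull ℝ (S.V : Set E)) G ∧
      Subtype.val '' A = G ∩ Set.extremePoints ℝ (convexHull ℝ (S.V : Set E))) ↔
      (∃ G : Set E, IsExposed ℝ (convexHull ℝ (S.V : Set E)) G ∧
        Subtype.val '' A = G ∩ (S.V : Set E)) := by
    constructor
    · rintro ⟨G, hG, h⟩
      exact ⟨G, hG, h.trans (by rw [hext])⟩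
    · rintro ⟨G, hG, h⟩
      exact ⟨G, hG, h.trans (by rw [hext])⟩
  rw [h0, h1, h2, himg]
  exact key _ hA

theorem main_sys {k : ℕ} (hd : 4 ^ k * k ^ 3 < d) (hne : P.V.Nonempty) :
    ∃ F : Set E, F.Nonempty ∧ IsExposed ℝ (convexHull ℝ (P.V : Set E)) F ∧
      finrank ℝ (affineSpan ℝ F).direction = k ∧ Concl E k F := by
  classical
  obtain ⟨v, hv⟩ := hne
  rcases Nat.eq_zero_or_pos k with rfl | hk
  · refine ⟨_, P.face_nonempty hv ∅, P.face_isExposed hv (Finset.empty_subset _), ?_, ?_⟩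
    · rw [P.finrank_face hv (Finset.empty_subset _), Finset.card_empty]
    · exact simplex_concl P hv (Finset.empty_subset _) rfl (by rw [P.face_empty hv]; rfl)
  by_cases hW : ∃ x ∈ P.V, ∃ a ∈ P.N x, k - 1 ≤ (P.N x ∩ P.N a).card
  · obtain ⟨x, hx, a, ha, hcard⟩ := hW
    obtain ⟨W, hW, hWc⟩ := Finset.exists_subset_card_eq hcard
    have haV := P.sub x hx ha
    have haW : a ∉ W := fun h => P.not_mem_N haV (Finset.mem_inter.1 (hW h)).2
    have hT : insert a W ⊆ P.N x := by
      intro y hy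
      rcases Finset.mem_insert.1 hy with h | h
      · exact h ▸ ha
      · exact (Finset.mem_inter.1 (hW h)).1
    have hTc : (insert a W).card = k := by
      rw [Finset.card_insert_of_notMem haW, hWc]; omega
    refine ⟨_, P.face_nonempty hx (insert a W), P.face_isExposed hx hT, ?_, ?_⟩
    · rw [P.finrank_face hx hT, hTc]
    · refine simplex_concl P hx hT hTc ?_
      rw [P.simplex_face hx ha hW, Finset.card_insert_of_notMem (fun h => P.not_mem_N hx (hT h)),
        hTc]
  · push Not at hW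
    have hdpos : 0 < d := lt_of_le_of_lt (Nat.zero_le _) hd
    have hk2 : 2 ≤ k := by
      have hNne : (P.N v).Nonempty := by
        rw [← Finset.card_pos, P.card v hv]; exact hdpos
      obtain ⟨a, ha⟩ := hNne
      have := hW v hv a ha
      omega
    obtain ⟨K, hK, hK4⟩ := P.exists_good hk2 hd ⟨v, hv⟩ (fun x hx a ha => by
      have := hW x hx a ha
      omega)
    obtain ⟨u, hu, T, hT, rfl, rfl⟩ := P.mem_faces.1 hK
    refine ⟨_, P.face_nonempty hu T, P.face_isExposed hu hT, P.finrank_face hu hT, ?_⟩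
    refine cube_concl (P.sub_sys hu hT) ⟨u, P.self_mem_face hu T⟩ ?_
    intro Q hQ
    obtain ⟨x, hx, U, hU, hUc, rfl⟩ := (P.sub_sys hu hT).mem_faces.1 hQ
    have hx' : x ∈ P.face u T := hx
    have hU' : U ⊆ P.N x ∩ P.face u T := hU
    apply hK4
    · rw [sub_face P hu hT hx' hU']
      exact P.mem_faces.2 ⟨x, P.face_sub u T hx', U, hU'.trans Finset.inter_subset_left, hUc, rfl⟩
    · exact (P.sub_sys hu hT).face_sub x U

end

end Pool.Agent.Lib.MP_257afc_co
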