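import Pool.Agent.Lib.MP_257afc_co.Faces

/-!
A face of a simple polytope all of whose two-dimensional faces are quadrilaterals.
-/

namespace Pool.Agent.Lib.MP_257afc_co

open Finset Module

namespace Sys

variable {E : Type*} [AddCommGroup E] [Module ℝ E] [DecidableEq E] {d : ℕ} (S : Sys E d)

theorem three_le_card {Q : Finset E} (hQ : Q ∈ S.faces 2) : 3 ≤ Q.card := by
  obtain ⟨x, hx⟩ := S.faces_nonempty hQ
  have h1 := S.faces_card hQ hx
  have hxV := S.faces_sub hQ hx
  have h2 : insert x (S.N x ∩ Q) ⊆ Q := by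
    intro y hy
    rcases Finset.mem_insert.1 hy with h | h
    · exact h ▸ hx
    · exact (Finset.mem_inter.1 h).2
  have h3 : x ∉ S.N x ∩ Q := fun h => S.not_mem_N hxV (Finset.mem_inter.1 h).1
  have h4 := Finset.card_le_card h2
  rw [Finset.card_insert_of_notMem h3, h1] at h4
  exact h4

theorem tri_adj {x a b : E} (hx : x ∈ S.V) (ha : a ∈ S.N x) (hb : b ∈ S.N x) (hab : a ≠ b)
    (h3 : (S.face x {a, b}).card = 3) : b ∈ S.N a := by
  have hT : ({a, b} : Finset E) ⊆ S.N x := by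
    intro y hy
    rcases Finset.mem_insert.1 hy with h | h
    · exact h ▸ ha
    · exact (Finset.mem_singleton.1 h) ▸ hb
  have hc : ({a, b} : Finset E).card = 2 := Finset.card_pair hab
  have hF := S.face_mem hx hT hc
  have ha' : a ∈ S.face x {a, b} := S.mem_face_of_mem hx hT (Finset.mem_insert_self _ _)
  have hb' : b ∈ S.face x {a, b} :=
    S.mem_face_of_mem hx hT (Finset.mem_insert_of_mem (Finset.mem_singleton_self _))
  have h1 := S.faces_card hF ha'
  have h2 : S.N a ∩ S.face x {a, b} ⊆ (S.face x {a, b}).erase a := by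
    intro y hy
    have hy' := Finset.mem_inter.1 hy
    refine Finset.mem_erase.2 ⟨S.ne_of_mem (S.sub x hx ha) hy'.1, hy'.2⟩
  have h4 : S.N a ∩ S.face x {a, b} = (S.face x {a, b}).erase a := by
    refine Finset.eq_of_subset_of_card_le h2 ?_
    rw [Finset.card_erase_of_mem ha', h3, h1]
  have h5 : b ∈ (S.face x {a, b}).erase a := Finset.mem_erase.2 ⟨hab.symm, hb'⟩
  rw [← h4] at h5
  exact (Finset.mem_inter.1 h5).1

theorem tri_at {x : E} (hx : x ∈ S.V) {m : ℕ} (h : ∀ a ∈ S.N x, (S.N x ∩ S.N a).card ≤ m) :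
    2 * ((powersetCard 2 (S.N x)).filter fun T => (S.face x T).card = 3).card ≤ d * m := by
  set 𝒯 := (powersetCard 2 (S.N x)).filter fun T => (S.face x T).card = 3 with h𝒯
  have h1 : ∑ T ∈ 𝒯, T.card = 2 * 𝒯.card := by
    rw [Finset.sum_congr rfl (g := fun _ => 2), Finset.sum_const, smul_eq_mul, mul_comm]
    intro T hT
    exact (Finset.mem_powersetCard.1 (Finset.mem_filter.1 hT).1).2
  have h2 := Finset.sum_card_bipartiteAbove_eq_sum_card_bipartiteBelow
    (s := 𝒯) (t := S.N x) (fun (F : Finset E) (x : E) => x ∈ F)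
  have h3 : ∑ T ∈ 𝒯, T.card =
      ∑ T ∈ 𝒯, ((S.N x).bipartiteAbove (fun (F : Finset E) (x : E) => x ∈ F) T).card := by
    refine Finset.sum_congr rfl fun T hT => ?_
    congr 1
    ext y
    simp only [Finset.bipartiteAbove, Finset.mem_filter]
    exact ⟨fun hy => ⟨(Finset.mem_powersetCard.1 (Finset.mem_filter.1 hT).1).1 hy, hy⟩,
      fun hy => hy.2⟩
  rw [← h1, h3, h2]
  have h4 : ∀ a ∈ S.N x, (𝒯.bipartiteBelow (fun (F : Finset E) (x : E) => x ∈ F) a).card ≤ m := by
    intro a ha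
    refine le_trans ?_ (h a ha)
    have h5 : 𝒯.bipartiteBelow (fun (F : Finset E) (x : E) => x ∈ F) a ⊆
        (S.N x ∩ S.N a).image fun b => {a, b} := by
      intro T hT
      simp only [Finset.bipartiteBelow, Finset.mem_filter, h𝒯, Finset.mem_powersetCard] at hT
      obtain ⟨⟨⟨hTs, hTc⟩, hT3⟩, haT⟩ := hT
      obtain ⟨p, q, hpq, rfl⟩ := Finset.card_eq_two.1 hTc
      have hp : p ∈ S.N x := hTs (Finset.mem_insert_self _ _)
      have hq : q ∈ S.N x := hTs (Finset.mem_insert_of_mem (Finset.mem_singleton_self _))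
      rcases Finset.mem_insert.1 haT with h | h
      · subst h
        exact Finset.mem_image.2 ⟨q, Finset.mem_inter.2 ⟨hq, S.tri_adj hx hp hq hpq hT3⟩, rfl⟩
      · have h := Finset.mem_singleton.1 h
        subst h
        refine Finset.mem_image.2 ⟨p, Finset.mem_inter.2 ⟨hp, ?_⟩, Finset.pair_comm _ _⟩
        rw [Finset.pair_comm] at hT3
        exact S.tri_adj hx hq hp hpq.symm hT3
    exact (Finset.card_le_card h5).trans Finset.card_image_le
  have h6 := Finset.sum_le_sum h4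
  rwa [Finset.sum_const, smul_eq_mul, S.card x hx] at h6

theorem tri_count {m : ℕ} (h : ∀ x ∈ S.V, ∀ a ∈ S.N x, (S.N x ∩ S.N a).card ≤ m) :
    6 * ((S.faces 2).filter fun Q => Q.card = 3).card ≤ S.V.card * (d * m) := by
  have h1 := S.sum_card 2 (fun Q => Q.card = 3)
  have h2 : ∑ F ∈ (S.faces 2).filter (fun Q => Q.card = 3), F.card =
      3 * ((S.faces 2).filter fun Q => Q.card = 3).card := by
    rw [Finset.sum_congr rfl (g := fun _ => 3), Finset.sum_const, smul_eq_mul, mul_comm]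
    intro T hT
    exact (Finset.mem_filter.1 hT).2
  have h3 : ∑ x ∈ S.V, 2 * ((powersetCard 2 (S.N x)).filter fun T =>
      (S.face x T).card = 3).card ≤ ∑ _x ∈ S.V, d * m :=
    Finset.sum_le_sum fun x hx => S.tri_at hx (h x hx)
  rw [Finset.sum_const, smul_eq_mul, ← Finset.mul_sum, ← h1, h2] at h3
  linarith

theorem bad_count {m : ℕ} (h : ∀ x ∈ S.V, ∀ a ∈ S.N x, (S.N x ∩ S.N a).card ≤ m) :
    6 * ((S.faces 2).filter fun Q => Q.card ≠ 4).card ≤ S.V.card * (d * (2 * m + 3)) := by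
  have h1 := S.tri_count h
  have h2 := S.eight_mul_faces
  have h3 := S.sum_card_all 2
  have h4 : 4 * (S.faces 2).card + ((S.faces 2).filter fun Q => Q.card ≠ 4).card ≤
      ∑ F ∈ S.faces 2, F.card + 2 * ((S.faces 2).filter fun Q => Q.card = 3).card := by
    rw [Finset.card_filter, Finset.card_filter, Finset.card_eq_sum_ones, Finset.mul_sum,
      Finset.mul_sum, ← Finset.sum_add_distrib, ← Finset.sum_add_distrib]
    refine Finset.sum_le_sum fun Q hQ => ?_
    have h5 := S.three_le_card hQ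
    split_ifs <;> omega
  have h5 := two_choose_two d
  zify at h1 h3 h4 ⊢
  have h6 : 2 * ∑ F ∈ S.faces 2, (F.card : ℤ) = S.V.card * (d * (d - 1)) := by
    rw [h3, ← h5]; ring
  nlinarith [h1, h2, h4, h6]

theorem card_above {k : ℕ} {Q : Finset E} (hQ : Q ∈ S.faces 2) :
    ((S.faces k).filter fun K => Q ⊆ K).card ≤ (d - 2).choose (k - 2) := by
  obtain ⟨x, hx⟩ := S.faces_nonempty hQ
  have hxV := S.faces_sub hQ hx
  have h1 : (powersetCard (k - 2) (S.N x \ Q)).card = (d - 2).choose (k - 2) := by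
    rw [Finset.card_powersetCard]
    congr 1
    have h2 := Finset.card_sdiff_add_card_inter (S.N x) Q
    rw [S.faces_card hQ hx, S.card x hxV] at h2
    omega
  rw [← h1]
  refine Finset.card_le_card_of_injOn (fun K => (S.N x ∩ K) \ Q) ?_ ?_
  · intro K hK
    simp only [Finset.coe_filter, Set.mem_ofPred_eq] at hK
    refine Finset.mem_coe.2 (Finset.mem_powersetCard.2 ⟨?_, ?_⟩)
    · exact Finset.sdiff_subset_sdiff Finset.inter_subset_left (Finset.Subset.refl _)
    · have h3 := Finset.card_sdiff_add_card_inter (S.N x ∩ K) Q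
      have h4 : S.N x ∩ K ∩ Q = S.N x ∩ Q := by
        rw [Finset.inter_assoc, Finset.inter_eq_right.2 hK.2]
      rw [h4, S.faces_card hQ hx, S.faces_card hK.1 (hK.2 hx)] at h3
      change ((S.N x ∩ K) \ Q).card = k - 2
      omega
  · intro K hK L hL h
    simp only [Finset.coe_filter, Set.mem_ofPred_eq] at hK hL
    dsimp only at h
    have h5 : ∀ M : Finset E, Q ⊆ M → S.N x ∩ M = (S.N x ∩ M) \ Q ∪ (S.N x ∩ Q) := by
      intro M hM
      ext y
      simp only [Finset.mem_inter, Finset.mem_union, Finset.mem_sdiff]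
      constructor
      · rintro ⟨h1, h2⟩
        by_cases hy : y ∈ Q
        · exact Or.inr ⟨h1, hy⟩
        · exact Or.inl ⟨⟨h1, h2⟩, hy⟩
      · rintro (h | h)
        · exact h.1
        · exact ⟨h.1, hM h.2⟩
    rw [← S.faces_eq hK.1 (hK.2 hx), ← S.faces_eq hL.1 (hL.2 hx), h5 K hK.2, h5 L hL.2, h]

theorem numeric {k d : ℕ} (hk : 2 ≤ k) (hd : 4 ^ k * k ^ 3 < d) :
    d * (2 * (k - 2) + 3) * (d - 2).choose (k - 2) < 3 * ((d + 1) / 2).choose k := by
  obtain ⟨j, rfl⟩ := Nat.exists_eq_add_of_le hk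
  have hkd : 4 * (2 + j) ≤ d := by
    have h1 : 4 ^ 1 ≤ 4 ^ (2 + j) := Nat.pow_le_pow_right (by norm_num) (by omega)
    have h2 : (2 + j) ^ 1 ≤ (2 + j) ^ 3 := Nat.pow_le_pow_right (by omega) (by norm_num)
    have h3 := Nat.mul_le_mul h1 h2
    rw [pow_one, pow_one] at h3
    omega
  set m := (d + 1) / 2 with hm
  have hA : (m + 1 - (2 + j)) ^ (2 + j) ≤ (2 + j).factorial * m.choose (2 + j) := by
    rw [← Nat.descFactorial_eq_factorial_mul_choose]
    exact Nat.pow_sub_le_descFactorial m (2 + j)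
  have hB : d ^ (2 + j) ≤ 4 ^ (2 + j) * (m + 1 - (2 + j)) ^ (2 + j) := by
    rw [← mul_pow]
    exact Nat.pow_le_pow_left (by omega) _
  have hC : j.factorial * (d - 2).choose j ≤ d ^ j := by
    rw [← Nat.descFactorial_eq_factorial_mul_choose]
    exact (Nat.descFactorial_le_pow _ _).trans (Nat.pow_le_pow_left (by omega) _)
  have hD : (2 + j).factorial = (j + 2) * (j + 1) * j.factorial := by
    rw [add_comm 2 j, Nat.factorial_succ, Nat.factorial_succ]; ring
  have hj : 2 + j - 2 = j := by omega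
  rw [hj]
  have hE : 0 < 4 ^ (2 + j) * (2 + j).factorial := by positivity
  refine lt_of_mul_lt_mul_left ?_ hE.le
  have h1 : 4 ^ (2 + j) * (2 + j).factorial * (d * (2 * j + 3) * (d - 2).choose j) ≤
      4 ^ (2 + j) * ((j + 2) * (j + 1)) * (d * (2 * j + 3)) * d ^ j := by
    calc _ = 4 ^ (2 + j) * ((j + 2) * (j + 1)) * (d * (2 * j + 3)) *
          (j.factorial * (d - 2).choose j) := by rw [hD]; ring
      _ ≤ _ := Nat.mul_le_mul_left _ hC
  have h2 : 3 * d ^ (2 + j) ≤ 4 ^ (2 + j) * (2 + j).factorial * (3 * m.choose (2 + j)) := by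
    calc 3 * d ^ (2 + j) ≤ 3 * (4 ^ (2 + j) * (m + 1 - (2 + j)) ^ (2 + j)) :=
          Nat.mul_le_mul_left _ hB
      _ ≤ 3 * (4 ^ (2 + j) * ((2 + j).factorial * m.choose (2 + j))) :=
          Nat.mul_le_mul_left _ (Nat.mul_le_mul_left _ hA)
      _ = _ := by ring
  refine lt_of_le_of_lt h1 (lt_of_lt_of_le ?_ h2)
  have h3 : 4 ^ (2 + j) * ((j + 2) * (j + 1)) * (d * (2 * j + 3)) * d ^ j =
      4 ^ (2 + j) * ((j + 2) * (j + 1) * (2 * j + 3)) * d ^ (j + 1) := by
    rw [pow_succ]; ring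
  have h4 : 3 * d ^ (2 + j) = 3 * d * d ^ (j + 1) := by
    rw [show 2 + j = j + 1 + 1 by ring, pow_succ]; ring
  rw [h3, h4]
  have hdpos : 0 < d := by omega
  refine Nat.mul_lt_mul_of_pos_right ?_ (by positivity)
  have h5 : (j + 2) * (j + 1) * (2 * j + 3) ≤ 3 * (2 + j) ^ 3 := by nlinarith [sq_nonneg j]
  calc 4 ^ (2 + j) * ((j + 2) * (j + 1) * (2 * j + 3)) ≤ 4 ^ (2 + j) * (3 * (2 + j) ^ 3) :=
        Nat.mul_le_mul_left _ h5
    _ = 3 * (4 ^ (2 + j) * (2 + j) ^ 3) := by ring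
    _ < 3 * d := by omega

/-- Some `k`-face has only quadrilateral two-dimensional faces. -/
theorem exists_good {k : ℕ} (hk : 2 ≤ k) (hd : 4 ^ k * k ^ 3 < d) (hne : S.V.Nonempty)
    (h : ∀ x ∈ S.V, ∀ a ∈ S.N x, (S.N x ∩ S.N a).card ≤ k - 2) :
    ∃ K ∈ S.faces k, ∀ Q ∈ S.faces 2, Q ⊆ K → Q.card = 4 := by
  by_contra! hcon
  have h1 := S.bad_count h
  have h2 := S.two_mul_faces k
  have h3 : S.faces k ⊆ ((S.faces 2).filter fun Q => Q.card ≠ 4).biUnion
      fun Q => (S.faces k).filter fun K => Q ⊆ K := by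
    intro K hK
    obtain ⟨Q, hQ, hQK, hQ4⟩ := hcon K hK
    exact Finset.mem_biUnion.2 ⟨Q, Finset.mem_filter.2 ⟨hQ, hQ4⟩, Finset.mem_filter.2 ⟨hK, hQK⟩⟩
  have h4 : (S.faces k).card ≤ ((S.faces 2).filter fun Q => Q.card ≠ 4).card *
      (d - 2).choose (k - 2) := by
    refine (Finset.card_le_card h3).trans (Finset.card_biUnion_le_card_mul _ _ _ fun Q hQ => ?_)
    exact S.card_above (Finset.mem_filter.1 hQ).1
  have h5 := numeric hk hd
  have hN : 0 < S.V.card := hne.card_pos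
  have h6 : S.V.card * (d * (2 * (k - 2) + 3) * (d - 2).choose (k - 2)) <
      S.V.card * (3 * ((d + 1) / 2).choose k) := Nat.mul_lt_mul_of_pos_left h5 hN
  have h7 : 6 * ((S.faces 2).filter fun Q => Q.card ≠ 4).card * (d - 2).choose (k - 2) ≤
      S.V.card * (d * (2 * (k - 2) + 3)) * (d - 2).choose (k - 2) := Nat.mul_le_mul_right _ h1
  nlinarith [h2, h4, h6, h7]

end Sys

end Pool.Agent.Lib.MP_257afc_co
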